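import Pool.Agent.Work.LinearSieve.Interface
import Pool.Agent.Work.MP_b0c12c_nt_helper41.Mert

/-!
# Block MERT: the density condition for `1 / (p - 1)`
-/

set_option autoImplicit false

namespace Pool.Agent.LinSieve

open Finset

namespace MertProof

/-- Bounds for one factor. -/
lemma log_factor {x : ℝ} (h0 : 0 ≤ x) (h1 : x ≤ 1 / 2) :
    -x - x ^ 2 ≤ Real.log (1 - x) ∧ Real.log (1 - x) ≤ -x := by
  constructor
  · have h2 : 0 < 1 - x := by linarith
    have h3 := Real.log_le_sub_one_of_pos (inv_pos.2 h2)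
    rw [Real.log_inv] at h3
    have h4 : (1 - x)⁻¹ ≤ 1 + x + x ^ 2 + x ^ 3 * 2 := by
      rw [inv_le_iff_one_le_mul₀ h2]
      nlinarith [pow_nonneg h0 3, pow_nonneg h0 4]
    -- a sharper argument: integrate
    by_contra hcon
    push Not at hcon
    have h5 : 1 - x < Real.exp (-x - x ^ 2) := by
      rw [← Real.exp_log h2]
      exact Real.exp_lt_exp.2 hcon
    have h6 : Real.exp (-x - x ^ 2) * Real.exp (x + x ^ 2) = 1 := by
      rw [← Real.exp_add]
      ring_nf
      exact Real.exp_zero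
    have h7 : 1 + (x + x ^ 2) ≤ Real.exp (x + x ^ 2) := by
      have := Real.add_one_le_exp (x + x ^ 2)
      linarith
    have h8 : (1 - x) * (1 + (x + x ^ 2)) = 1 - x ^ 3 := by ring
    have h9 : Real.exp (x + x ^ 2) ≥ 1 + (x + x ^ 2) + (x + x ^ 2) ^ 2 / 2 :=
      Real.quadratic_le_exp_of_nonneg (by positivity)
    have h10 : 1 ≤ (1 - x) * Real.exp (x + x ^ 2) := by
      have : (1 - x) * (1 + (x + x ^ 2) + (x + x ^ 2) ^ 2 / 2) ≤ (1 - x) * Real.exp (x + x ^ 2) :=
        mul_le_mul_of_nonneg_left h9 h2.le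
      refine le_trans ?_ this
      nlinarith [mul_nonneg h0 h0, pow_nonneg h0 3, mul_nonneg (pow_nonneg h0 2) (by linarith : 0 ≤ 1 - x),
        mul_nonneg (pow_nonneg h0 3) (by linarith : 0 ≤ 1 / 2 - x), pow_nonneg h0 4,
        mul_nonneg (pow_nonneg h0 4) (by linarith : 0 ≤ 1 / 2 - x)]
    have h11 : (1 - x) * Real.exp (x + x ^ 2) < 1 := by
      calc (1 - x) * Real.exp (x + x ^ 2) < Real.exp (-x - x ^ 2) * Real.exp (x + x ^ 2) := by
            gcongr
        _ = 1 := h6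
    linarith
  · have := Real.log_le_sub_one_of_pos (by linarith : 0 < 1 - x)
    linarith

/-- Telescoping bound. -/
lemma tele (n m : ℕ) (hn : 2 ≤ n) (P : Finset ℕ) (hP : P ⊆ Ioc n m) :
    ∑ p ∈ P, 2 / ((p : ℝ) - 1) ^ 2 ≤ 2 / ((n : ℝ) - 1) := by
  have h0 : ∀ p ∈ Ioc n m, (0 : ℝ) ≤ 2 / ((p : ℝ) - 1) ^ 2 := fun p _ => by positivity
  refine (sum_le_sum_of_subset_of_nonneg hP (fun p hp _ => h0 p hp)).trans ?_
  have hn1 : (0 : ℝ) < (n : ℝ) - 1 := by
    have : (2 : ℝ) ≤ n := by exact_mod_cast hn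
    linarith
  have key : ∀ m, n ≤ m → ∑ p ∈ Ioc n m, 2 / ((p : ℝ) - 1) ^ 2 ≤ 2 / ((n : ℝ) - 1)
      - 2 / ((m : ℝ) - 1) + (if m = n then 0 else 0) := by
    intro m hm
    induction m, hm using Nat.le_induction with
    | base => simp
    | succ m hm ih =>
      rw [sum_Ioc_succ_top hm]
      have hm1 : (0 : ℝ) < (m : ℝ) - 1 := by
        have : (2 : ℝ) ≤ m := by exact_mod_cast hn.trans hm
        linarith
      have e : 2 / (((m + 1 : ℕ) : ℝ) - 1) ^ 2 ≤ 2 / ((m : ℝ) - 1) - 2 / (((m + 1 : ℕ) : ℝ) - 1) := by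
        push_cast
        have hm2 : (0 : ℝ) < (m : ℝ) + 1 - 1 := by linarith
        rw [div_sub_div _ _ hm1.ne' hm2.ne', div_le_div_iff₀ (pow_pos hm2 2) (mul_pos hm1 hm2)]
        nlinarith [hm1, mul_pos hm1 hm1]
      simp only [ite_self, add_zero] at ih ⊢
      linarith
  rcases le_or_gt n m with h | h
  · have h1 := key m h
    have h2 : (0 : ℝ) ≤ 2 / ((m : ℝ) - 1) := by
      have : (2 : ℝ) ≤ m := by exact_mod_cast hn.trans h
      apply div_nonneg <;> linarith
    simp only [ite_self, add_zero] at h1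
    linarith
  · rw [Ioc_eq_empty (by omega)]
    simp only [sum_empty]
    positivity

/-- `log log` at a real number and the integer below it. -/
lemma loglog {n : ℕ} (hn : 3 ≤ n) {u : ℝ} (h1 : (n : ℝ) ≤ u) (h2 : u ≤ n + 1) :
    0 ≤ Real.log (Real.log u) - Real.log (Real.log n) ∧
      Real.log (Real.log u) - Real.log (Real.log n) ≤ 1 / n := by
  have hn3 : (3 : ℝ) ≤ n := by exact_mod_cast hn
  have hn0 : (0 : ℝ) < n := by linarith
  have ha : 1 ≤ Real.log n := by
    have h3 : Real.exp 1 ≤ n := by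
      have := Real.exp_one_lt_d9
      linarith
    rw [Real.le_log_iff_exp_le hn0]
    exact h3
  have ha' : Real.log n ≤ Real.log u := Real.log_le_log hn0 h1
  constructor
  · have := Real.log_le_log (by linarith) ha'
    linarith
  · rw [← Real.log_div (by linarith) (by linarith)]
    refine (Real.log_le_sub_one_of_pos (div_pos (by linarith) (by linarith))).trans ?_
    have h4 : Real.log u ≤ Real.log n + 1 / n := by
      have h5 : Real.log u - Real.log n ≤ u / n - 1 := by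
        rw [← Real.log_div (by linarith) (by linarith)]
        exact Real.log_le_sub_one_of_pos (div_pos (by linarith) (by linarith))
      have h6 : u / n - 1 ≤ 1 / n := by
        rw [div_sub_one hn0.ne']
        gcongr
        linarith
      linarith
    rw [div_sub_one (by linarith), div_le_iff₀ (by linarith)]
    have h7 : 1 / (n : ℝ) * 1 ≤ 1 / n * Real.log n := by gcongr
    linarith

end MertProof

open MertProof in
theorem MERT : Stmt_MERT := by
  intro ε hε
  obtain ⟨C, hC, hM⟩ := Pool.Agent.Work.MP_b0c12c_nt_helper41.mertens2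
  have hlε : 0 < Real.log (1 + ε) := Real.log_pos (by linarith)
  -- choice of the bound
  have hlim : Filter.Tendsto (fun n : ℕ => C / Real.log n + 3 / ((n : ℝ) - 1)) Filter.atTop
      (nhds 0) := by
    have h1 : Filter.Tendsto (fun n : ℕ => C / Real.log n) Filter.atTop (nhds 0) :=
      Filter.Tendsto.const_div_atTop (Real.tendsto_log_atTop.comp tendsto_natCast_atTop_atTop) C
    have h2 : Filter.Tendsto (fun n : ℕ => 3 / ((n : ℝ) - 1)) Filter.atTop (nhds 0) := by
      apply Filter.Tendsto.const_div_atTop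
      exact Filter.tendsto_atTop_add_const_right _ (-1) tendsto_natCast_atTop_atTop
    simpa using h1.add h2
  obtain ⟨n₀, hn₀⟩ := Filter.eventually_atTop.1 (hlim.eventually (ge_mem_nhds hlε))
  refine ⟨n₀ + 4, by omega, ?_⟩
  intro u w hu huw
  have hu4 : (4 : ℝ) ≤ u := by
    have : ((n₀ + 4 : ℕ) : ℝ) ≤ u := hu
    push_cast at this
    have : (0 : ℝ) ≤ n₀ := Nat.cast_nonneg _
    linarith
  -- the integers below
  obtain ⟨n, hn⟩ : ∃ n, ⌈u⌉₊ = n + 1 := ⟨⌈u⌉₊ - 1, by
    have : 0 < ⌈u⌉₊ := Nat.ceil_pos.2 (by linarith)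
    omega⟩
  obtain ⟨m, hm⟩ : ∃ m, ⌈w⌉₊ = m + 1 := ⟨⌈w⌉₊ - 1, by
    have : 0 < ⌈w⌉₊ := Nat.ceil_pos.2 (by linarith)
    omega⟩
  have hnm : n ≤ m := by
    have := Nat.ceil_mono huw
    omega
  have hnu : (n : ℝ) < u := by
    rw [← Nat.lt_ceil]
    omega
  have hun : u ≤ n + 1 := by
    have := Nat.le_ceil u
    rw [hn] at this
    exact_mod_cast this
  have hmw : (m : ℝ) < w := by
    rw [← Nat.lt_ceil]
    omega
  have hwm : w ≤ m + 1 := by
    have := Nat.le_ceil w
    rw [hm] at this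
    exact_mod_cast this
  have hn3 : n₀ + 3 ≤ n := by
    have : ((n₀ + 4 : ℕ) : ℝ) ≤ n + 1 := hu.trans hun
    have : n₀ + 4 ≤ n + 1 := by exact_mod_cast this
    omega
  have hset : (range ⌈w⌉₊).filter (fun p : ℕ => p.Prime ∧ u ≤ (p : ℝ)) =
      (Ioc n m).filter Nat.Prime := by
    ext p
    simp only [mem_filter, mem_range, mem_Ioc]
    rw [hm]
    have h1 : u ≤ (p : ℝ) ↔ n < p := by
      rw [← Nat.ceil_le, hn]
      omega
    rw [h1]
    constructor
    · rintro ⟨a, b, c⟩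
      exact ⟨⟨c, by omega⟩, b⟩
    · rintro ⟨⟨a, b⟩, c⟩
      exact ⟨by omega, c, a⟩
  rw [hset]
  set P := (Ioc n m).filter Nat.Prime with hP
  have hPn : ∀ p ∈ P, (n : ℝ) + 1 ≤ p := by
    intro p hp
    rw [hP, mem_filter, mem_Ioc] at hp
    exact_mod_cast hp.1.1
  have hn3' : (3 : ℝ) ≤ n := by exact_mod_cast (by omega : 3 ≤ n)
  have hx : ∀ p ∈ P, 0 ≤ 1 / ((p : ℝ) - 1) ∧ 1 / ((p : ℝ) - 1) ≤ 1 / 2 := by
    intro p hp
    have h1 := hPn p hp
    constructor
    · apply div_nonneg <;> linarith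
    · apply one_div_le_one_div_of_le <;> linarith
  -- logarithm of the product
  have hpos : ∀ p ∈ P, 0 < 1 - 1 / ((p : ℝ) - 1) := by
    intro p hp
    have := (hx p hp).2
    linarith
  have hprod : 0 < ∏ p ∈ P, (1 - 1 / ((p : ℝ) - 1)) := prod_pos hpos
  have hlog : Real.log (∏ p ∈ P, (1 - 1 / ((p : ℝ) - 1))) =
      ∑ p ∈ P, Real.log (1 - 1 / ((p : ℝ) - 1)) := Real.log_prod fun p hp => (hpos p hp).ne'
  have hsum : |Real.log (∏ p ∈ P, (1 - 1 / ((p : ℝ) - 1))) + ∑ p ∈ P, 1 / (p : ℝ)|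
      ≤ 2 / ((n : ℝ) - 1) := by
    rw [hlog, ← sum_add_distrib]
    refine (abs_sum_le_sum_abs _ _).trans (le_trans (sum_le_sum ?_)
      (tele n m (by omega) P (filter_subset _ _)))
    intro p hp
    have h1 := hPn p hp
    have hp1 : 0 < (p : ℝ) - 1 := by linarith
    have hp0 : 0 < (p : ℝ) := by linarith
    obtain ⟨a, b⟩ := log_factor (hx p hp).1 (hx p hp).2
    have e1 : 1 / ((p : ℝ) - 1) - 1 / p ≤ 1 / ((p : ℝ) - 1) ^ 2 := by
      rw [div_sub_div _ _ hp1.ne' hp0.ne', div_le_div_iff₀ (by positivity) (by positivity)]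
      nlinarith
    have e2 : 1 / (p : ℝ) ≤ 1 / ((p : ℝ) - 1) := one_div_le_one_div_of_le hp1 (by linarith)
    have e3 : (1 / ((p : ℝ) - 1)) ^ 2 = 1 / ((p : ℝ) - 1) ^ 2 := by rw [div_pow, one_pow]
    have e4 : 2 / ((p : ℝ) - 1) ^ 2 = 1 / ((p : ℝ) - 1) ^ 2 + 1 / ((p : ℝ) - 1) ^ 2 := by ring
    have e5 : 0 ≤ 1 / ((p : ℝ) - 1) ^ 2 := by positivity
    rw [e3] at a
    rw [abs_le]
    constructor <;> linarith
  have hmert := hM n m (by omega) hnm
  obtain ⟨q1, q2⟩ := loglog (n := n) (by omega) hnu.le hun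
  obtain ⟨q3, q4⟩ := loglog (n := m) (by omega) hmw.le hwm
  have hnm' : 1 / (m : ℝ) ≤ 1 / n := by
    apply one_div_le_one_div_of_le (by linarith)
    exact_mod_cast hnm
  have hn1 : 1 / (n : ℝ) ≤ 1 / ((n : ℝ) - 1) := one_div_le_one_div_of_le (by linarith) (by linarith)
  have hb := hn₀ n (by omega)
  have hlu : 0 < Real.log u := Real.log_pos (by linarith)
  have hlw : 0 < Real.log w := Real.log_pos (by linarith)
  set R := (Real.log w / Real.log u) * ∏ p ∈ P, (1 - 1 / ((p : ℝ) - 1)) with hR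
  have hR0 : 0 < R := by positivity
  have hlR : Real.log R = Real.log (Real.log w) - Real.log (Real.log u) +
      Real.log (∏ p ∈ P, (1 - 1 / ((p : ℝ) - 1))) := by
    rw [hR, Real.log_mul (by positivity) hprod.ne', Real.log_div hlw.ne' hlu.ne']
  have e3 : 3 / ((n : ℝ) - 1) = 1 / ((n : ℝ) - 1) + 2 / ((n : ℝ) - 1) := by ring
  rw [e3] at hb
  rw [abs_le] at hsum hmert
  have hup : Real.log R ≤ Real.log (1 + ε) := by linarith [hsum.1, hsum.2, hmert.1, hmert.2]
  have hlo : -Real.log (1 + ε) ≤ Real.log R := by linarith [hsum.1, hsum.2, hmert.1, hmert.2]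
  constructor
  · have h1 : 0 ≤ Real.log ((1 + ε) * R) := by
      rw [Real.log_mul (by linarith) hR0.ne']
      linarith
    have h2 : 1 ≤ (1 + ε) * R := by
      have h3 : 0 < (1 + ε) * R := by positivity
      rw [Real.log_nonneg_iff h3] at h1
      exact h1
    rw [hR, ← mul_assoc] at h2
    exact h2
  · rw [Real.log_le_log_iff hR0 (by linarith)] at hup
    exact hup

end Pool.Agent.LinSieve
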