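import Pool.Agent.Work.LinearSieve.Good

/-!
# The linear sieve: existence of the functions
-/

set_option autoImplicit false

namespace Pool.Agent.LinearSieve

open MeasureTheory Set
open scoped Topology

lemma JJ_le_two_three (s : ℝ) (h2 : 2 ≤ s) (h3 : s ≤ 3) : Jt hh s ≤ 99 / 100 * (s * hh s) := by
  rw [JJ_small s h3]
  have h4 : hh s = Real.exp (-(6 / 5) * s) := by
    unfold hh
    rw [max_eq_left h2]
  have h5 := key_ineq (s - 2) (by linarith) (by linarith)
  have h6 : Real.exp (-(12 / 5)) = Real.exp (6 / 5 * (s - 2)) * Real.exp (-(6 / 5) * s) := by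
    rw [← Real.exp_add]; congr 1; ring
  rw [h4, h6]
  have h7 := Real.exp_pos (-(6 / 5) * s)
  have h8 := mul_le_mul_of_nonneg_right h5 h7.le
  nlinarith

lemma JJ_le_main (s : ℝ) (hs : 2 ≤ s) : Jt hh s / s ≤ 99 / 100 * hh s := by
  rw [div_le_iff₀ (by linarith)]
  rcases le_total s 3 with h3 | h3
  · have := JJ_le_two_three s hs h3
    linarith
  · rw [JJ_large s h3]
    have h4 : hh s = Real.exp (-(6 / 5) * s) := by
      unfold hh
      rw [max_eq_left hs]
    rw [h4]
    have h5 : Real.exp (6 / 5) ≤ 7 / 2 := by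
      have e1 : Real.exp (6 / 5) = Real.exp (3 / 5) ^ 2 := by
        rw [← Real.exp_nat_mul]; norm_num
      have e2 : Real.exp (3 / 5) ≤ 37 / 20 := by
        have h5 := Real.exp_bound' (x := 3 / 5) (by norm_num) (by norm_num) (n := 3) (by norm_num)
        refine le_trans h5 ?_
        simp only [Finset.sum_range_succ, Finset.range_zero, Finset.sum_empty, Nat.factorial]
        norm_num
      rw [e1]
      nlinarith [Real.exp_pos (3 / 5)]
    have h7 := Real.exp_pos (-(6 / 5) * s)
    have h8 : 5 / 6 * Real.exp (6 / 5) ≤ 99 / 100 * s := by linarith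
    have h9 := mul_le_mul_of_nonneg_right h8 h7.le
    nlinarith

lemma JJ_three_main (s : ℝ) (h1 : 1 ≤ s) (h3 : s ≤ 3) : Jt hh 3 / s ≤ 99 / 100 * hh s := by
  rw [div_le_iff₀ (by linarith)]
  rcases le_total s 2 with h2 | h2
  · rw [JJ_three_eq, hh_eq_small s h2]
    have := Real.exp_pos (-(12 / 5))
    nlinarith
  · have h4 := JJ_le_two_three s h2 h3
    have h5 := good_hh.Jt_anti h3
    linarith

/-- The operator of the lower bound sieve. -/
noncomputable def Lo (e : ℝ → ℝ) (s : ℝ) : ℝ := Jt e (max s 2) / max s 2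

/-- The operator of the upper bound sieve. -/
noncomputable def Up (e : ℝ → ℝ) (s : ℝ) : ℝ := Jt e (max s 3) / max s 1

lemma hh_max (s a : ℝ) (ha : a ≤ 2) : hh (max s a) = hh s := by
  unfold hh
  rw [max_assoc, max_eq_right ha]

lemma good_Lo {c : ℝ} {e : ℝ → ℝ} (he : Good c e) : Good (99 / 100 * c) (Lo e) := by
  have hpos : ∀ s : ℝ, 0 < max s 2 := fun s => lt_of_lt_of_le (by norm_num) (le_max_right s 2)
  refine ⟨by have := he.c0; positivity, ?_, ?_, ?_, ?_⟩
  · exact (he.Jt_cont.comp (by fun_prop)).div (by fun_prop) fun s => (hpos s).ne'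
  · intro s t hst
    have h1 : max s 2 ≤ max t 2 := max_le_max_right 2 hst
    exact div_le_div₀ (he.Jt_nonneg _) (he.Jt_anti h1) (hpos s) h1
  · intro s
    exact div_nonneg (he.Jt_nonneg _) (hpos s).le
  · intro s
    have h1 := JJ_le_main (max s 2) (le_max_right s 2)
    rw [hh_max s 2 le_rfl] at h1
    unfold Lo
    calc Jt e (max s 2) / max s 2 ≤ (c * Jt hh (max s 2)) / max s 2 :=
          div_le_div_of_nonneg_right (he.Jt_le _) (hpos s).le
      _ = c * (Jt hh (max s 2) / max s 2) := by ring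
      _ ≤ c * (99 / 100 * hh s) := mul_le_mul_of_nonneg_left h1 he.c0
      _ = _ := by ring

lemma good_Up {c : ℝ} {e : ℝ → ℝ} (he : Good c e) : Good (99 / 100 * c) (Up e) := by
  have hpos : ∀ s : ℝ, 0 < max s 1 := fun s => lt_of_lt_of_le (by norm_num) (le_max_right s 1)
  refine ⟨by have := he.c0; positivity, ?_, ?_, ?_, ?_⟩
  · exact (he.Jt_cont.comp (by fun_prop)).div (by fun_prop) fun s => (hpos s).ne'
  · intro s t hst
    have h1 : max s 3 ≤ max t 3 := max_le_max_right 3 hst
    have h2 : max s 1 ≤ max t 1 := max_le_max_right 1 hst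
    exact div_le_div₀ (he.Jt_nonneg _) (he.Jt_anti h1) (hpos s) h2
  · intro s
    exact div_nonneg (he.Jt_nonneg _) (hpos s).le
  · intro s
    have h1 : Jt hh (max s 3) / max s 1 ≤ 99 / 100 * hh s := by
      rcases le_total s 3 with h3 | h3
      · rw [max_eq_right h3]
        have := JJ_three_main (max s 1) (le_max_right s 1) (max_le h3 (by norm_num))
        rwa [hh_max s 1 (by norm_num)] at this
      · rw [max_eq_left h3, max_eq_left (by linarith : (1 : ℝ) ≤ s)]
        exact JJ_le_main s (by linarith)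
    unfold Up
    calc Jt e (max s 3) / max s 1 ≤ (c * Jt hh (max s 3)) / max s 1 :=
          div_le_div_of_nonneg_right (he.Jt_le _) (hpos s).le
      _ = c * (Jt hh (max s 3) / max s 1) := by ring
      _ ≤ c * (99 / 100 * hh s) := mul_le_mul_of_nonneg_left h1 he.c0
      _ = _ := by ring

/-- The first function. -/
noncomputable def u0 (s : ℝ) : ℝ := max (3 / max s 1 - 1) 0

lemma u0_large (s : ℝ) (hs : 3 ≤ s) : u0 s = 0 := by
  unfold u0
  rw [max_eq_left (by linarith : (1 : ℝ) ≤ s), max_eq_right]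
  rw [sub_nonpos, div_le_one (by linarith)]
  exact hs

lemma u0_small (s : ℝ) (h1 : 1 ≤ s) (h3 : s ≤ 3) : u0 s = 3 / s - 1 := by
  unfold u0
  rw [max_eq_left h1, max_eq_left]
  rw [sub_nonneg, le_div_iff₀ (by linarith)]
  linarith

lemma good_u0 : Good (2 / hh 3) u0 := by
  have hpos : ∀ s : ℝ, 0 < max s 1 := fun s => lt_of_lt_of_le (by norm_num) (le_max_right s 1)
  have h3 := hh_pos 3
  refine ⟨by positivity, ?_, ?_, ?_, ?_⟩
  · exact ((continuous_const.div (by fun_prop) fun s => (hpos s).ne').sub continuous_const).max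
      continuous_const
  · intro s t hst
    have h2 : max s 1 ≤ max t 1 := max_le_max_right 1 hst
    unfold u0
    apply max_le_max _ le_rfl
    have := div_le_div_of_nonneg_left (by norm_num : (0 : ℝ) ≤ 3) (hpos s) h2
    linarith
  · intro s
    exact le_max_right _ _
  · intro s
    rcases le_total s 3 with h4 | h4
    · have h5 : u0 s ≤ 2 := by
        unfold u0
        apply max_le _ (by norm_num)
        have : 3 / max s 1 ≤ 3 := div_le_self (by norm_num) (le_max_right s 1)
        linarith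
      have h6 := hh_anti h4
      calc u0 s ≤ 2 := h5
        _ = 2 / hh 3 * hh 3 := by field_simp
        _ ≤ _ := mul_le_mul_of_nonneg_left h6 (by positivity)
    · rw [u0_large s h4]
      have := hh_pos s
      positivity

/-- The iterates. -/
noncomputable def us : ℕ → ℝ → ℝ
  | 0 => u0
  | n + 1 => Up (Lo (us n))

noncomputable def q0 : ℝ := (99 / 100) ^ 2

lemma good_us (n : ℕ) : Good (2 / hh 3 * q0 ^ n) (us n) := by
  induction n with
  | zero =>
    show Good (2 / hh 3 * q0 ^ 0) u0
    simpa using good_u0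
  | succ n ih =>
    have h := good_Up (good_Lo ih)
    have e : 99 / 100 * (99 / 100 * (2 / hh 3 * q0 ^ n)) = 2 / hh 3 * q0 ^ (n + 1) := by
      rw [pow_succ]; unfold q0; ring
    rw [e] at h
    exact h

lemma good_ls (n : ℕ) : Good (2 / hh 3 * q0 ^ n) (Lo (us n)) := by
  have h := good_Lo (good_us n)
  refine ⟨(good_us n).c0, h.cont, h.anti, h.nonneg, fun s => le_trans (h.le s) ?_⟩
  apply mul_le_mul_of_nonneg_right _ (hh_pos s).le
  have := (good_us n).c0
  linarith

/-! ### Abstract series -/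

section series

variable {c₀ : ℝ} {e : ℕ → ℝ → ℝ}

lemma q0_pos : 0 < q0 := by unfold q0; norm_num
lemma q0_lt : q0 < 1 := by unfold q0; norm_num

lemma summable_geo (c₀ x : ℝ) : Summable fun n : ℕ => c₀ * q0 ^ n * x := by
  have := (summable_geometric_of_lt_one q0_pos.le q0_lt).mul_left (c₀ * x)
  refine this.congr fun n => ?_
  ring

lemma ser_summable (he : ∀ n, Good (c₀ * q0 ^ n) (e n)) (s : ℝ) : Summable fun n => e n s :=
  Summable.of_nonneg_of_le (fun n => (he n).nonneg s) (fun n => (he n).le s)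
    (summable_geo c₀ (hh s))

lemma ser_J_summable (he : ∀ n, Good (c₀ * q0 ^ n) (e n)) (s : ℝ) :
    Summable fun n => Jt (e n) s :=
  Summable.of_nonneg_of_le (fun n => (he n).Jt_nonneg s) (fun n => (he n).Jt_le s)
    (summable_geo c₀ (Jt hh s))

lemma ser_anti (he : ∀ n, Good (c₀ * q0 ^ n) (e n)) : Antitone fun s => ∑' n, e n s := by
  intro s t hst
  exact (ser_summable he t).tsum_le_tsum (fun n => (he n).anti hst) (ser_summable he s)

lemma ser_nonneg (he : ∀ n, Good (c₀ * q0 ^ n) (e n)) (s : ℝ) : 0 ≤ ∑' n, e n s :=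
  tsum_nonneg fun n => (he n).nonneg s

lemma ser_J_nonneg (he : ∀ n, Good (c₀ * q0 ^ n) (e n)) (s : ℝ) : 0 ≤ ∑' n, Jt (e n) s :=
  tsum_nonneg fun n => (he n).Jt_nonneg s

lemma ser_diff (he : ∀ n, Good (c₀ * q0 ^ n) (e n)) (t₁ t₂ : ℝ) (h : t₁ ≤ t₂) :
    (t₂ - t₁) * ∑' n, e n (t₂ - 1) ≤ ∑' n, Jt (e n) t₁ - ∑' n, Jt (e n) t₂ := by
  rw [← tsum_mul_left, ← (ser_J_summable he t₁).tsum_sub (ser_J_summable he t₂)]
  exact ((ser_summable he _).mul_left _).tsum_le_tsum (fun n => (he n).Jt_diff t₁ t₂ h)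
    ((ser_J_summable he t₁).sub (ser_J_summable he t₂))

lemma ser_le (he : ∀ n, Good (c₀ * q0 ^ n) (e n)) (s : ℝ) :
    ∑' n, e n s ≤ c₀ / (1 - q0) * hh s := by
  refine le_trans ((ser_summable he s).tsum_le_tsum (fun n => (he n).le s)
    (summable_geo c₀ (hh s))) (le_of_eq ?_)
  rw [tsum_mul_right, tsum_mul_left, tsum_geometric_of_lt_one q0_pos.le q0_lt]
  ring

end series

/-! ### Explicit values on `[1, 3]` -/

/-- Coefficients. -/
noncomputable def as : ℕ → ℝ
  | 0 => 3
  | n + 1 => Jt (Lo (us n)) 3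

noncomputable def bs : ℕ → ℝ
  | 0 => 1
  | _ + 1 => 0

lemma us_small (n : ℕ) (s : ℝ) (h1 : 1 ≤ s) (h3 : s ≤ 3) : us n s = as n / s - bs n := by
  cases n with
  | zero => exact u0_small s h1 h3
  | succ n =>
    show Up (Lo (us n)) s = _
    unfold Up as bs
    rw [max_eq_right h3, max_eq_left h1, sub_zero]

lemma Jt_us_small (n : ℕ) (s : ℝ) (h2 : 2 ≤ s) (h4 : s ≤ 4) :
    Jt (us n) 2 - Jt (us n) s = as n * Real.log (s - 1) - bs n * (s - 2) := by
  rw [(good_us n).Jt_sub]
  have h1 : ∫ t in (2 : ℝ)..s, us n (t - 1) = ∫ t in (2 : ℝ)..s, (as n / (t - 1) - bs n) := by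
    refine intervalIntegral.integral_congr fun t ht => ?_
    rw [uIcc_of_le h2] at ht
    exact us_small n (t - 1) (by linarith [ht.1]) (by linarith [ht.2])
  rw [h1]
  have h5 : ∀ t ∈ uIcc 2 s, HasDerivAt (fun t => as n * Real.log (t - 1) - bs n * t)
      (as n / (t - 1) - bs n) t := by
    intro t ht
    rw [uIcc_of_le h2] at ht
    have ht1 : t - 1 ≠ 0 := by linarith [ht.1]
    have e1 : HasDerivAt (fun t : ℝ => Real.log (t - 1)) (1 / (t - 1)) t :=
      ((hasDerivAt_id t).sub_const 1).log ht1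
    have e2 := (e1.const_mul (as n)).sub ((hasDerivAt_id t).const_mul (bs n))
    have e3 : as n * (1 / (t - 1)) - bs n * 1 = as n / (t - 1) - bs n := by ring
    rw [e3] at e2
    exact e2
  rw [intervalIntegral.integral_eq_sub_of_hasDerivAt h5]
  · norm_num
    ring
  · apply ContinuousOn.intervalIntegrable
    apply ContinuousOn.sub _ continuousOn_const
    apply ContinuousOn.div continuousOn_const (by fun_prop)
    intro t ht
    rw [uIcc_of_le h2] at ht
    linarith [ht.1]

/-! ### The identity `Jp 2 = 2` -/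

/-- `∫_1^∞ (v - 1) e(v) dv`. -/
noncomputable def I1 (e : ℝ → ℝ) : ℝ := ∫ v in Ioi 1, (v - 1) * e v

lemma int_lin {c : ℝ} {e : ℝ → ℝ} (he : Good c e) (a b : ℝ) (ha : 0 ≤ a) :
    IntegrableOn (fun v => (v - b) * e v) (Ioi a) := by
  have h := (he.int_mul a ha).sub ((he.int a).const_mul b)
  refine h.congr (Filter.Eventually.of_forall fun v => ?_)
  simp only [Pi.sub_apply]
  ring

lemma Jt_int {c : ℝ} {e : ℝ → ℝ} (he : Good c e) (a : ℝ) : IntegrableOn (Jt e) (Ioi a) := by
  refine Integrable.mono' ((integrableOn_exp_mul_Ioi (a := -(6 / 5)) (by norm_num) a).const_mul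
    (c * (5 / 6 * Real.exp (6 / 5)))) he.Jt_cont.aestronglyMeasurable ?_
  refine Filter.Eventually.of_forall fun t => ?_
  rw [Real.norm_eq_abs, abs_of_nonneg (he.Jt_nonneg t)]
  refine le_trans (he.Jt_le t) ?_
  have := mul_le_mul_of_nonneg_left (JJ_le_exp t) he.c0
  linarith

/-- Integration by parts. -/
lemma Jt_parts {c : ℝ} {e : ℝ → ℝ} (he : Good c e) (a : ℝ) (ha : 1 ≤ a) :
    ∫ t in Ioi a, Jt e t = ∫ v in Ioi (a - 1), (v - (a - 1)) * e v := by
  have hint2 : IntegrableOn (fun t => (t - a) * e (t - 1)) (Ioi a) := by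
    have h1 := int_lin he (a - 1) (a - 1) (by linarith)
    have h2 : IntegrableOn (fun t => (t - 1 - (a - 1)) * e (t - 1)) (Ioi a) := by
      have h3 := (integrable_indicator_iff measurableSet_Ioi).2 h1
      have h4 := h3.comp_sub_right 1
      rw [← integrable_indicator_iff measurableSet_Ioi]
      refine h4.congr (Filter.Eventually.of_forall fun t => ?_)
      simp only [indicator, mem_Ioi, sub_lt_sub_iff_right]
    refine h2.congr (Filter.Eventually.of_forall fun t => ?_)
    simp only
    ring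
  have hsh : ∫ v in Ioi (a - 1), (v - (a - 1)) * e v = ∫ t in Ioi a, (t - a) * e (t - 1) := by
    rw [← integral_indicator measurableSet_Ioi, ← integral_indicator measurableSet_Ioi,
      ← integral_sub_right_eq_self (fun x => (Ioi (a - 1)).indicator
        (fun v => (v - (a - 1)) * e v) x) 1]
    congr 1
    funext t
    unfold indicator
    simp only [mem_Ioi, sub_lt_sub_iff_right]
    split_ifs
    · ring
    · rfl
  rw [hsh]
  have hderiv : ∀ t ∈ Ioi a, HasDerivAt (fun t => (t - a) * Jt e t)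
      (Jt e t - (t - a) * e (t - 1)) t := by
    intro t _
    have h := ((hasDerivAt_id t).sub_const a).mul (he.Jt_deriv t)
    have e1 : 1 * Jt e t + (t - a) * -e (t - 1) = Jt e t - (t - a) * e (t - 1) := by ring
    simp only [id] at h
    rw [e1] at h
    exact h
  have hlim : Filter.Tendsto (fun t => (t - a) * Jt e t) Filter.atTop (𝓝 0) := by
    have hup : Filter.Tendsto (fun t : ℝ => c * (5 / 6 * Real.exp (6 / 5)) * (5 * Real.exp (-1 * t)))
        Filter.atTop (𝓝 0) := by
      have h1 : Filter.Tendsto (fun t : ℝ => Real.exp (-1 * t)) Filter.atTop (𝓝 0) := by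
        have h2 := Real.tendsto_exp_neg_atTop_nhds_zero
        refine h2.congr fun t => ?_
        congr 1; ring
      have h3 := h1.const_mul (c * (5 / 6 * Real.exp (6 / 5)) * 5)
      rw [mul_zero] at h3
      refine h3.congr fun t => ?_
      ring
    refine squeeze_zero' ?_ ?_ hup
    · filter_upwards [Filter.eventually_ge_atTop a] with t ht
      exact mul_nonneg (by linarith) (he.Jt_nonneg t)
    · filter_upwards [Filter.eventually_ge_atTop a] with t ht
      have h1 : Jt e t ≤ c * (5 / 6 * (Real.exp (6 / 5) * Real.exp (-(6 / 5) * t))) :=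
        le_trans (he.Jt_le t) (mul_le_mul_of_nonneg_left (JJ_le_exp t) he.c0)
      have h2 : (t - a) * Jt e t ≤ t * Jt e t :=
        mul_le_mul_of_nonneg_right (by linarith) (he.Jt_nonneg t)
      have h3 : t * Jt e t ≤ t * (c * (5 / 6 * (Real.exp (6 / 5) * Real.exp (-(6 / 5) * t)))) :=
        mul_le_mul_of_nonneg_left h1 (by linarith)
      have h4 := mul_le_mul_of_nonneg_left (mul_exp_le t)
        (by have := he.c0; positivity : 0 ≤ c * (5 / 6 * Real.exp (6 / 5)))
      linarith
  have hmain := integral_Ioi_of_hasDerivAt_of_tendsto (a := a)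
    (f := fun t => (t - a) * Jt e t) (f' := fun t => Jt e t - (t - a) * e (t - 1))
    (((continuous_id.sub continuous_const).mul he.Jt_cont).continuousWithinAt) hderiv
    ((Jt_int he a).sub hint2) hlim
  rw [integral_sub (Jt_int he a) hint2] at hmain
  simp only [sub_self, zero_mul] at hmain
  linarith

/-- `∫_2^∞ v Lo e(v) dv = ∫_1^∞ (v - 1) e(v) dv`. -/
lemma int_Lo {c : ℝ} {e : ℝ → ℝ} (he : Good c e) : ∫ v in Ioi 2, v * Lo e v = I1 e := by
  have h1 : ∫ v in Ioi (2 : ℝ), v * Lo e v = ∫ v in Ioi (2 : ℝ), Jt e v := by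
    refine setIntegral_congr_fun measurableSet_Ioi fun v hv => ?_
    have hv' : 2 < v := hv
    show v * Lo e v = Jt e v
    unfold Lo
    rw [max_eq_left hv'.le]
    field_simp
  rw [h1, Jt_parts he 2 (by norm_num)]
  unfold I1
  norm_num

/-- The recursion for `I1`. -/
lemma I1_Up {c : ℝ} {l : ℝ → ℝ} (hl : Good c l) :
    I1 (Up l) = (∫ v in Ioi 2, v * l v) - Jt (Up l) 2 := by
  have hU := good_Up hl
  have h1 : I1 (Up l) = ∫ v in Ioi (1 : ℝ), (Jt l (max v 3) - Up l v) := by
    unfold I1
    refine setIntegral_congr_fun measurableSet_Ioi fun v hv => ?_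
    have hv' : 1 < v := hv
    show (v - 1) * Up l v = Jt l (max v 3) - Up l v
    have : v * Up l v = Jt l (max v 3) := by
      unfold Up
      rw [max_eq_left hv'.le]
      field_simp
    rw [← this]; ring
  have hc3 : Continuous fun v : ℝ => Jt l (max v 3) := hl.Jt_cont.comp (by fun_prop)
  have hi3 : IntegrableOn (fun v : ℝ => Jt l (max v 3)) (Ioi 3) := by
    refine (Jt_int hl 3).congr_fun (fun v hv => ?_) measurableSet_Ioi
    have hv' : 3 < v := hv
    show Jt l v = Jt l (max v 3)
    rw [max_eq_left hv'.le]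
  have hi1 : IntegrableOn (fun v : ℝ => Jt l (max v 3)) (Ioi 1) := by
    have h13 : Ioi (1 : ℝ) = Ioc 1 3 ∪ Ioi 3 := (Ioc_union_Ioi_eq_Ioi (by norm_num)).symm
    rw [h13]
    refine IntegrableOn.union ?_ hi3
    exact (hc3.integrableOn_Icc (a := 1) (b := 3)).mono_set Ioc_subset_Icc_self
  rw [h1, integral_sub hi1 (hU.int 1), Jt_eq (Up l) 2]
  have h2 : ∫ v in Ioi (1 : ℝ), Jt l (max v 3) = 2 * Jt l 3 + ∫ v in Ioi (3 : ℝ), Jt l v := by
    rw [← intervalIntegral.integral_interval_add_Ioi hi1 hi3]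
    congr 1
    · have h3 : ∫ v in (1 : ℝ)..3, Jt l (max v 3) = ∫ _v in (1 : ℝ)..3, Jt l 3 := by
        refine intervalIntegral.integral_congr fun v hv => ?_
        rw [uIcc_of_le (by norm_num)] at hv
        show Jt l (max v 3) = Jt l 3
        rw [max_eq_right hv.2]
      rw [h3, intervalIntegral.integral_const, smul_eq_mul]
      norm_num
    · refine setIntegral_congr_fun measurableSet_Ioi fun v hv => ?_
      have hv' : 3 < v := hv
      show Jt l (max v 3) = Jt l v
      rw [max_eq_left hv'.le]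
  rw [h2, Jt_parts hl 3 (by norm_num), Jt_eq l 3]
  have e2 : (3 : ℝ) - 1 = 2 := by norm_num
  have e1 : (2 : ℝ) - 1 = 1 := by norm_num
  rw [e2, e1]
  congr 1
  rw [← integral_const_mul, ← integral_add ((hl.int 2).const_mul 2) (int_lin hl 2 2 (by norm_num))]
  refine setIntegral_congr_fun measurableSet_Ioi fun v _ => ?_
  show 2 * l v + (v - 2) * l v = v * l v
  ring

lemma I1_succ (n : ℕ) : I1 (us (n + 1)) = I1 (us n) - Jt (us (n + 1)) 2 := by
  show I1 (Up (Lo (us n))) = _
  rw [I1_Up (good_ls n), int_Lo (good_us n)]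
  rfl

lemma I1_u0 : I1 u0 + Jt u0 2 = 2 := by
  rw [Jt_eq]
  have e1 : (2 : ℝ) - 1 = 1 := by norm_num
  rw [e1]
  unfold I1
  rw [← integral_add (int_lin good_u0 1 1 (by norm_num)) (good_u0.int 1)]
  have h1 : ∫ v in Ioi (1 : ℝ), ((v - 1) * u0 v + u0 v) = ∫ v in Ioi (1 : ℝ), v * u0 v := by
    refine setIntegral_congr_fun measurableSet_Ioi fun v _ => ?_
    show (v - 1) * u0 v + u0 v = v * u0 v
    ring
  rw [h1, ← intervalIntegral.integral_interval_add_Ioi (good_u0.int_mul 1 (by norm_num))
    (good_u0.int_mul 3 (by norm_num))]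
  have h2 : ∫ v in Ioi (3 : ℝ), v * u0 v = 0 := by
    rw [setIntegral_congr_fun (g := fun _ => (0 : ℝ)) measurableSet_Ioi fun v hv => ?_]
    · simp
    · have hv' : 3 < v := hv
      show v * u0 v = 0
      rw [u0_large v hv'.le, mul_zero]
  have h3 : ∫ v in (1 : ℝ)..3, v * u0 v = ∫ v in (1 : ℝ)..3, (3 - v) := by
    refine intervalIntegral.integral_congr fun v hv => ?_
    rw [uIcc_of_le (by norm_num)] at hv
    show v * u0 v = 3 - v
    rw [u0_small v hv.1 hv.2]
    have : v ≠ 0 := by linarith [hv.1]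
    field_simp
  rw [h2, h3, intervalIntegral.integral_sub (by simp) (by simp)]
  simp
  norm_num

lemma Jp_two : ∑' n, Jt (us n) 2 = 2 := by
  have hs := ser_J_summable good_us 2
  have h1 : ∀ N : ℕ, ∑ n ∈ Finset.range (N + 1), Jt (us n) 2 = 2 - I1 (us N) := by
    intro N
    induction N with
    | zero =>
      have := I1_u0
      simp only [zero_add, Finset.sum_range_one]
      show Jt u0 2 = 2 - I1 u0
      linarith
    | succ N ih =>
      rw [Finset.sum_range_succ, ih, I1_succ]
      ring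
  have h2 : Filter.Tendsto (fun N => I1 (us N)) Filter.atTop (𝓝 0) := by
    have hup : Filter.Tendsto (fun N : ℕ => 2 / hh 3 * q0 ^ N * I1 hh) Filter.atTop (𝓝 0) := by
      have h3 := (tendsto_pow_atTop_nhds_zero_of_lt_one q0_pos.le q0_lt).const_mul
        (2 / hh 3 * I1 hh)
      rw [mul_zero] at h3
      refine h3.congr fun N => ?_
      ring
    refine squeeze_zero (fun N => ?_) (fun N => ?_) hup
    · exact setIntegral_nonneg measurableSet_Ioi fun v hv =>
        mul_nonneg (sub_nonneg.2 (le_of_lt hv)) ((good_us N).nonneg v)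
    · unfold I1
      rw [← integral_const_mul]
      refine setIntegral_mono_on (int_lin (good_us N) 1 1 (by norm_num))
        ((int_lin good_hh 1 1 (by norm_num)).const_mul _) measurableSet_Ioi fun v hv => ?_
      have hv' : (1 : ℝ) < v := hv
      have := mul_le_mul_of_nonneg_left ((good_us N).le v) (sub_nonneg.2 hv'.le)
      linarith
  have h3 : Filter.Tendsto (fun N => ∑ n ∈ Finset.range (N + 1), Jt (us n) 2) Filter.atTop (𝓝 2) := by
    have h4 := h2.const_sub 2
    rw [sub_zero] at h4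
    exact h4.congr fun N => (h1 N).symm
  have h5 : Filter.Tendsto (fun N => ∑ n ∈ Finset.range (N + 1), Jt (us n) 2) Filter.atTop
      (𝓝 (∑' n, Jt (us n) 2)) := hs.hasSum.tendsto_sum_nat.comp (Filter.tendsto_add_atTop_nat 1)
  exact tendsto_nhds_unique h5 h3

/-! ### The package -/

lemma Jp_small (s : ℝ) (h2 : 2 ≤ s) (h4 : s ≤ 4) : ∑' n, Jt (us n) s
    = s - (3 + ∑' n, Jt (Lo (us n)) 3) * Real.log (s - 1) := by
  have h1 := Jp_two
  have hs2 := ser_J_summable good_us 2
  have hss := ser_J_summable good_us s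
  have hl3 := ser_J_summable good_ls 3
  have h3 : ∑' n, Jt (us n) 2 - ∑' n, Jt (us n) s
      = ∑' n, (as n * Real.log (s - 1) - bs n * (s - 2)) := by
    rw [← hs2.tsum_sub hss]
    exact tsum_congr fun n => Jt_us_small n s h2 h4
  have hsum : Summable fun n => (as n * Real.log (s - 1) - bs n * (s - 2)) :=
    (hs2.sub hss).congr fun n => Jt_us_small n s h2 h4
  rw [hsum.tsum_eq_zero_add] at h3
  simp only [as, bs, zero_mul, sub_zero] at h3
  rw [tsum_mul_right] at h3
  linarith

/-- The functions of the linear sieve exist. -/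
noncomputable def fns : Fns where
  fp := fun s => ∑' n, us n s
  fm := fun s => ∑' n, Lo (us n) s
  Jp := fun s => ∑' n, Jt (us n) s
  Jm := fun s => ∑' n, Jt (Lo (us n)) s
  JJ := Jt hh
  A := 3 + ∑' n, Jt (Lo (us n)) 3
  C := 2 / hh 3 / (1 - q0)
  C_nonneg := by
    have := hh_pos 3
    have := q0_lt
    have : 0 < 1 - q0 := by linarith
    positivity
  fp_anti := ser_anti good_us
  fm_anti := ser_anti good_ls
  fp_nonneg := ser_nonneg good_us
  fm_nonneg := ser_nonneg good_ls
  Jp_nonneg := ser_J_nonneg good_us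
  Jm_nonneg := ser_J_nonneg good_ls
  JJ_nonneg := good_hh.Jt_nonneg
  Jp_diff := ser_diff good_us
  Jm_diff := ser_diff good_ls
  JJ_diff := good_hh.Jt_diff
  fp_le := ser_le good_us
  fm_le := ser_le good_ls
  fm_eq := by
    intro s hs
    rw [← tsum_div_const]
    refine tsum_congr fun n => ?_
    unfold Lo
    rw [max_eq_left hs]
  fp_eq := by
    intro s hs
    rw [(ser_summable good_us s).tsum_eq_zero_add, ← tsum_div_const]
    have h0 : us 0 s = 0 := u0_large s hs
    rw [h0, zero_add]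
    refine tsum_congr fun n => ?_
    show _ = Up (Lo (us n)) s
    unfold Up
    rw [max_eq_left hs, max_eq_left (by linarith : (1 : ℝ) ≤ s)]
  A_eq := rfl
  fp_small := by
    intro s h1 h3
    rw [(ser_summable good_us s).tsum_eq_zero_add]
    have h0 : us 0 s = 3 / s - 1 := u0_small s h1 h3
    have h4 : ∑' n, us (n + 1) s = (∑' n, Jt (Lo (us n)) 3) / s := by
      rw [← tsum_div_const]
      refine tsum_congr fun n => ?_
      show Up (Lo (us n)) s = _
      unfold Up
      rw [max_eq_right h3, max_eq_left h1]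
    rw [h0, h4]
    ring
  fm_small := by
    intro s h2 h4
    have h1 : ∑' n, Lo (us n) s = (∑' n, Jt (us n) s) / s := by
      rw [← tsum_div_const]
      refine tsum_congr fun n => ?_
      unfold Lo
      rw [max_eq_left h2]
    show 1 - ∑' n, Lo (us n) s = _
    rw [h1, Jp_small s h2 h4]
    field_simp
    ring
  JJ_le := JJ_le_main
  JJ_three := JJ_three_main

lemma A_ge : 3 ≤ fns.A := by
  have := fns.Jm_nonneg 3
  rw [fns.A_eq]
  linarith

end Pool.Agent.LinearSieve
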