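import Pool.Agent.Work.LinearSieve.FinalStmt
import Pool.Agent.Work.LinearSieve.Funcs

/-!
# The linear sieve: final form
-/

set_option autoImplicit false

namespace Pool.Agent.LinearSieve

open Finset
open scoped Classical

/-! ### The density condition -/

lemma V_split (P : Finset ℕ) (g : ℕ → ℝ) (u v : ℝ) (huv : u ≤ v) :
    V P g v = V P g u * ∏ p ∈ P.filter (fun p : ℕ => u ≤ (p : ℝ) ∧ (p : ℝ) < v), (1 - g p) := by
  unfold V
  rw [← prod_union]
  · congr 1
    ext p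
    simp only [mem_filter, mem_union]
    constructor
    · rintro ⟨h1, h2⟩
      rcases lt_or_ge (p : ℝ) u with h3 | h3
      · exact Or.inl ⟨h1, h3⟩
      · exact Or.inr ⟨h1, h3, h2⟩
    · rintro (⟨h1, h2⟩ | ⟨h1, _, h3⟩)
      · exact ⟨h1, by linarith⟩
      · exact ⟨h1, h3⟩
  · rw [disjoint_left]
    intro p h1 h2
    have h3 := (mem_filter.1 h1).2
    have h4 := (mem_filter.1 h2).2.1
    linarith

lemma V_eq_one (P : Finset ℕ) (g : ℕ → ℝ) (hP : ∀ p ∈ P, 2 ≤ p) (u : ℝ) (hu : u ≤ 2) :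
    V P g u = 1 := by
  unfold V
  rw [filter_false_of_mem, prod_empty]
  intro p hp h
  have : (2 : ℝ) ≤ p := by exact_mod_cast hP p hp
  linarith

lemma V_eq_all (P : Finset ℕ) (g : ℕ → ℝ) (z v : ℝ) (hz : ∀ p ∈ P, (p : ℝ) < z) (hv : z ≤ v) :
    V P g v = ∏ p ∈ P, (1 - g p) := by
  unfold V
  rw [filter_true_of_mem]
  intro p hp
  linarith [hz p hp]

lemma reg_of_hyp (P : Finset ℕ) (g : ℕ → ℝ) (ε z : ℝ) (hε : 0 ≤ ε) (hz2 : 2 ≤ z)
    (hP : ∀ p ∈ P, 2 ≤ p) (hg1 : ∀ p ∈ P, g p < 1) (hPz : ∀ p ∈ P, (p : ℝ) < z)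
    (h : ∀ u w : ℝ, 2 ≤ u → u ≤ w → w ≤ z → 1 ≤ (1 + ε) * (Real.log w / Real.log u) *
      ∏ p ∈ P.filter (fun p : ℕ => u ≤ (p : ℝ) ∧ (p : ℝ) < w), (1 - g p)) :
    ∀ u v, 1 < u → u ≤ v → V P g u ≤ V P g v * ((1 + ε) * (Real.log v / Real.log u)) := by
  have base : ∀ u v, 2 ≤ u → u ≤ v → v ≤ z →
      V P g u ≤ V P g v * ((1 + ε) * (Real.log v / Real.log u)) := by
    intro u v h1 h2 h3
    rw [V_split P g u v h2]
    have h4 := mul_le_mul_of_nonneg_left (h u v h1 h2 h3) (V_pos P g hg1 u).le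
    rw [mul_one] at h4
    refine le_trans h4 (le_of_eq ?_)
    ring
  have one : ∀ u v : ℝ, 1 < u → u ≤ v → 1 ≤ (1 + ε) * (Real.log v / Real.log u) := by
    intro u v h1 h2
    have h3 : 1 ≤ Real.log v / Real.log u := by
      rw [le_div_iff₀ (Real.log_pos h1), one_mul]
      exact Real.log_le_log (by linarith) h2
    nlinarith
  intro u v hu huv
  rcases le_total v 2 with hv | hv
  · rw [V_eq_one P g hP u (by linarith), V_eq_one P g hP v hv, one_mul]
    exact one u v hu huv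
  · -- reduce to `u ≥ 2`
    have hu1 : V P g u = V P g (max u 2) := by
      rcases le_total u 2 with h1 | h1
      · rw [max_eq_right h1, V_eq_one P g hP u h1, V_eq_one P g hP 2 le_rfl]
      · rw [max_eq_left h1]
    have hlv : 0 < Real.log v := Real.log_pos (by linarith)
    have hlu : 0 < Real.log u := Real.log_pos hu
    have hm2 : 2 ≤ max u 2 := le_max_right u 2
    have hmv : max u 2 ≤ v := max_le huv hv
    have hlm : 0 < Real.log (max u 2) := Real.log_pos (by linarith)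
    have hum : Real.log u ≤ Real.log (max u 2) := Real.log_le_log (by linarith) (le_max_left u 2)
    have hratio : Real.log v / Real.log (max u 2) ≤ Real.log v / Real.log u :=
      div_le_div_of_nonneg_left hlv.le hlu hum
    have hVv : 0 < V P g v := V_pos P g hg1 v
    have hfin : V P g (max u 2) ≤ V P g v * ((1 + ε) * (Real.log v / Real.log (max u 2))) := by
      rcases le_total v z with h1 | h1
      · exact base _ v hm2 hmv h1
      · rcases le_total (max u 2) z with h2 | h2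
        · have h3 := base (max u 2) z hm2 h2 le_rfl
          have h4 : V P g z = V P g v := by
            rw [V_eq_all P g z z hPz le_rfl, V_eq_all P g z v hPz h1]
          rw [h4] at h3
          refine le_trans h3 ?_
          apply mul_le_mul_of_nonneg_left _ hVv.le
          apply mul_le_mul_of_nonneg_left _ (by linarith)
          apply div_le_div_of_nonneg_right _ hlm.le
          exact Real.log_le_log (by linarith) h1
        · rw [V_eq_all P g z _ hPz h2, V_eq_all P g z v hPz h1]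
          have h3 := one (max u 2) v (by linarith) hmv
          have h4 : 0 < ∏ p ∈ P, (1 - g p) := prod_pos fun p hp => sub_pos.2 (hg1 p hp)
          nlinarith
    rw [hu1]
    refine le_trans hfin ?_
    apply mul_le_mul_of_nonneg_left _ hVv.le
    exact mul_le_mul_of_nonneg_left hratio (by linarith)

/-! ### Removal of the small primes -/

lemma prod_one_sub_eq (Q : Finset ℕ) (x : ℕ → ℝ) :
    ∏ q ∈ Q, (1 - x q) = ∑ T ∈ Q.powerset, (-1) ^ T.card * ∏ q ∈ T, x q := by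
  induction Q using Finset.induction_on with
  | empty => simp
  | insert a Q ha ih =>
    rw [prod_insert ha, sum_powerset_insert ha, ih]
    have h : ∑ T ∈ Q.powerset, (-1 : ℝ) ^ (insert a T).card * ∏ q ∈ insert a T, x q
        = -(x a * ∑ T ∈ Q.powerset, (-1) ^ T.card * ∏ q ∈ T, x q) := by
      rw [mul_sum, ← sum_neg_distrib]
      refine sum_congr rfl fun T hT => ?_
      have haT : a ∉ T := fun h => ha (mem_powerset.1 hT h)
      rw [card_insert_of_notMem haT, prod_insert haT, pow_succ]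
      ring
    rw [h]
    ring

/-- The remainder for a set of primes. -/
noncomputable def FU (𝒜 : Finset ℕ) (ν : ℕ → ℕ) (a : ℕ → ℝ) (X : ℝ) (g : ℕ → ℝ)
    (U : Finset ℕ) : ℝ :=
  ∑ i ∈ 𝒜, (if ∀ p ∈ U, p ∣ ν i then a i else 0) - X * ∏ p ∈ U, g p

/-- Weights after removal of the integers divisible by primes of `Q`. -/
noncomputable def aQ (𝒜 Q : Finset ℕ) (ν : ℕ → ℕ) (a : ℕ → ℝ) (i : ℕ) : ℝ :=
  if i ∈ 𝒜 ∧ ∀ q ∈ Q, ¬ q ∣ ν i then a i else 0

lemma expand (𝒜 Q : Finset ℕ) (ν : ℕ → ℕ) (a : ℕ → ℝ) (X : ℝ) (g : ℕ → ℝ) (T : Finset ℕ)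
    (hT : Disjoint T Q) :
    AA 𝒜 ν (aQ 𝒜 Q ν a) T.val - X * (∏ q ∈ Q, (1 - g q)) * GG g T.val
      = ∑ T₁ ∈ Q.powerset, (-1) ^ T₁.card * FU 𝒜 ν a X g (T ∪ T₁) := by
  have h1 : AA 𝒜 ν (aQ 𝒜 Q ν a) T.val = ∑ T₁ ∈ Q.powerset, (-1) ^ T₁.card *
      ∑ i ∈ 𝒜, (if ∀ p ∈ T ∪ T₁, p ∣ ν i then a i else 0) := by
    simp only [mul_sum]
    rw [sum_comm]
    unfold AA
    refine sum_congr rfl fun i hi => ?_
    have h2 := prod_one_sub_eq Q (fun q => if q ∣ ν i then (1 : ℝ) else 0)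
    simp only [prod_boole] at h2
    have h3 : ∏ q ∈ Q, (1 - if q ∣ ν i then (1 : ℝ) else 0)
        = if ∀ q ∈ Q, ¬ q ∣ ν i then 1 else 0 := by
      rw [← prod_boole]
      refine prod_congr rfl fun q _ => ?_
      by_cases h : q ∣ ν i <;> simp [h]
    rw [h3] at h2
    by_cases hT1 : ∀ q ∈ T.val, q ∣ ν i
    · rw [if_pos hT1]
      have h4 : ∀ T₁ : Finset ℕ, (∀ p ∈ T ∪ T₁, p ∣ ν i) ↔ (∀ p ∈ T₁, p ∣ ν i) := by
        intro T₁
        constructor
        · intro h p hp; exact h p (mem_union_right _ hp)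
        · intro h p hp
          rcases mem_union.1 hp with h5 | h5
          · exact hT1 p h5
          · exact h p h5
      have h5 : aQ 𝒜 Q ν a i = (if ∀ q ∈ Q, ¬ q ∣ ν i then 1 else 0) * a i := by
        unfold aQ
        by_cases h6 : ∀ q ∈ Q, ¬ q ∣ ν i
        · rw [if_pos ⟨hi, h6⟩, if_pos h6, one_mul]
        · rw [if_neg (fun h => h6 h.2), if_neg h6, zero_mul]
      rw [h5, h2, sum_mul]
      refine sum_congr rfl fun T₁ _ => ?_
      simp only [h4]
      split_ifs <;> ring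
    · rw [if_neg hT1]
      symm
      apply sum_eq_zero
      intro T₁ _
      rw [if_neg, mul_zero]
      intro h
      exact hT1 fun q hq => h q (mem_union_left _ hq)
  have h2 : (∏ q ∈ Q, (1 - g q)) * GG g T.val
      = ∑ T₁ ∈ Q.powerset, (-1) ^ T₁.card * ∏ p ∈ T ∪ T₁, g p := by
    rw [prod_one_sub_eq, GG_val, sum_mul]
    refine sum_congr rfl fun T₁ hT₁ => ?_
    rw [prod_union (disjoint_of_subset_right (mem_powerset.1 hT₁) hT)]
    ring
  rw [h1, mul_assoc, h2, mul_sum, ← sum_sub_distrib]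
  refine sum_congr rfl fun T₁ _ => ?_
  unfold FU
  ring

/-- The sum of the remainders over sets of primes. -/
noncomputable def RU (P Q : Finset ℕ) (D : ℝ) (𝒜 : Finset ℕ) (ν : ℕ → ℕ) (a : ℕ → ℝ) (X : ℝ)
    (g : ℕ → ℝ) : ℝ :=
  ∑ U ∈ P.powerset.filter (fun U => ((∏ p ∈ U, p : ℕ) : ℝ) < D * (∏ q ∈ Q, q : ℕ)),
    |FU 𝒜 ν a X g U|

lemma Tot_le (P Q : Finset ℕ) (hQP : Q ⊆ P) (hP : ∀ p ∈ P, p.Prime) (z : ℕ) (D : ℝ) (hD : 0 < D)
    (𝒜 : Finset ℕ) (ν : ℕ → ℕ) (a : ℕ → ℝ) (X : ℝ) (g : ℕ → ℝ) :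
    Tot (P \ Q) z D (fun m => AA 𝒜 ν (aQ 𝒜 Q ν a) m - X * (∏ q ∈ Q, (1 - g q)) * GG g m)
      ≤ RU P Q D 𝒜 ν a X g := by
  have hQpos : ∀ T₁ ⊆ Q, ((∏ p ∈ T₁, p : ℕ) : ℝ) ≤ ((∏ q ∈ Q, q : ℕ) : ℝ) := by
    intro T₁ hT₁
    have : (∏ p ∈ T₁, p) ≤ ∏ q ∈ Q, q :=
      prod_le_prod_of_subset_of_one_le' hT₁ fun q hq _ => (hP q (hQP hq)).one_lt.le
    exact_mod_cast this
  unfold Tot
  calc ∑ T ∈ ((P \ Q).filter (· < z)).powerset, (if ((∏ p ∈ T, p : ℕ) : ℝ) < D then
        |AA 𝒜 ν (aQ 𝒜 Q ν a) T.val - X * (∏ q ∈ Q, (1 - g q)) * GG g T.val| else 0)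
      ≤ ∑ T ∈ ((P \ Q).filter (· < z)).powerset, ∑ T₁ ∈ Q.powerset,
          (if ((∏ p ∈ T, p : ℕ) : ℝ) < D then |FU 𝒜 ν a X g (T ∪ T₁)| else 0) := by
        refine sum_le_sum fun T hT => ?_
        have hTd : Disjoint T Q := by
          rw [disjoint_left]
          intro p hp hq
          have := mem_filter.1 (mem_powerset.1 hT hp)
          exact (mem_sdiff.1 this.1).2 hq
        split_ifs with h
        · rw [expand 𝒜 Q ν a X g T hTd]
          refine le_trans (abs_sum_le_sum_abs _ _) (sum_le_sum fun T₁ _ => ?_)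
          rw [abs_mul, abs_pow, abs_neg, abs_one, one_pow, one_mul]
        · simp
    _ = ∑ x ∈ ((((P \ Q).filter (· < z)).powerset) ×ˢ Q.powerset).filter
          (fun x => ((∏ p ∈ x.1, p : ℕ) : ℝ) < D), |FU 𝒜 ν a X g (x.1 ∪ x.2)| := by
        rw [sum_filter, sum_product]
    _ = ∑ U ∈ ((((((P \ Q).filter (· < z)).powerset) ×ˢ Q.powerset).filter
          (fun x => ((∏ p ∈ x.1, p : ℕ) : ℝ) < D)).image fun x => x.1 ∪ x.2),
            |FU 𝒜 ν a X g U| := by
        rw [sum_image]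
        intro x hx y hy hxy
        have hx' := mem_product.1 (mem_filter.1 (mem_coe.1 hx)).1
        have hy' := mem_product.1 (mem_filter.1 (mem_coe.1 hy)).1
        have e : ∀ w : Finset ℕ × Finset ℕ, w.1 ∈ (((P \ Q).filter (· < z)).powerset) →
            w.2 ∈ Q.powerset → w.1 = (w.1 ∪ w.2) \ Q ∧ w.2 = (w.1 ∪ w.2) ∩ Q := by
          intro w h1 h2
          have h3 : Disjoint w.1 Q := by
            rw [disjoint_left]
            intro p hp hq
            have := mem_filter.1 (mem_powerset.1 h1 hp)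
            exact (mem_sdiff.1 this.1).2 hq
          have h4 := mem_powerset.1 h2
          constructor
          · rw [union_sdiff_distrib, sdiff_eq_self_of_disjoint h3, sdiff_eq_empty_iff_subset.2 h4,
              union_empty]
          · rw [union_inter_distrib_right, disjoint_iff_inter_eq_empty.1 h3, empty_union,
              inter_eq_left.2 h4]
        obtain ⟨ex1, ex2⟩ := e x hx'.1 hx'.2
        obtain ⟨ey1, ey2⟩ := e y hy'.1 hy'.2
        simp only at hxy
        apply Prod.ext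
        · rw [ex1, ey1, hxy]
        · rw [ex2, ey2, hxy]
    _ ≤ _ := by
        unfold RU
        apply sum_le_sum_of_subset_of_nonneg
        · intro U hU
          rw [mem_image] at hU
          obtain ⟨x, hx, rfl⟩ := hU
          rw [mem_filter, mem_product] at hx
          obtain ⟨⟨h1, h2⟩, h3⟩ := hx
          have h1' := mem_powerset.1 h1
          have h2' := mem_powerset.1 h2
          rw [mem_filter, mem_powerset]
          refine ⟨union_subset (fun p hp => (mem_sdiff.1 (mem_filter.1 (h1' hp)).1).1)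
            (h2'.trans hQP), ?_⟩
          have hd : Disjoint x.1 x.2 := by
            rw [disjoint_left]
            intro p hp hq
            exact (mem_sdiff.1 (mem_filter.1 (h1' hp)).1).2 (h2' hq)
          rw [prod_union hd, Nat.cast_mul]
          have h4 := hQpos x.2 h2'
          have h5 : (0 : ℝ) < ((∏ p ∈ x.2, p : ℕ) : ℝ) := by
            have : 0 < ∏ p ∈ x.2, p := prod_pos fun p hp => (hP p (hQP (h2' hp))).pos
            exact_mod_cast this
          calc ((∏ p ∈ x.1, p : ℕ) : ℝ) * ((∏ p ∈ x.2, p : ℕ) : ℝ)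
              < D * ((∏ p ∈ x.2, p : ℕ) : ℝ) := mul_lt_mul_of_pos_right h3 h5
            _ ≤ _ := mul_le_mul_of_nonneg_left h4 hD.le
        · intro U _ _
          exact abs_nonneg _

lemma RU_le (P Q : Finset ℕ) (hP : ∀ p ∈ P, p.Prime) (D : ℝ)
    (𝒜 : Finset ℕ) (ν : ℕ → ℕ) (a : ℕ → ℝ) (X : ℝ) (g : ℕ → ℝ) :
    RU P Q D 𝒜 ν a X g ≤
      ∑ d ∈ (∏ p ∈ P, p).divisors.filter (fun d : ℕ => (d : ℝ) < D * (∏ q ∈ Q, q : ℕ)),
        |∑ i ∈ 𝒜.filter (fun i => d ∣ ν i), a i - X * ∏ p ∈ d.primeFactors, g p| := by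
  have hPne : (∏ p ∈ P, p) ≠ 0 := prod_ne_zero_iff.2 fun p hp => (hP p hp).ne_zero
  have hpf : ∀ U ⊆ P, (∏ p ∈ U, p).primeFactors = U := fun U hU =>
    Nat.primeFactors_prod fun p hp => hP p (hU hp)
  have hdiv : ∀ U ⊆ P, ∀ n : ℕ, (∏ p ∈ U, p) ∣ n ↔ ∀ p ∈ U, p ∣ n := by
    intro U hU n
    constructor
    · intro h p hp
      exact (dvd_prod_of_mem (fun p => p) hp).trans h
    · intro h
      exact prod_primes_dvd n (fun p hp => (hP p (hU hp)).prime) h
  unfold RU
  calc ∑ U ∈ P.powerset.filter (fun U => ((∏ p ∈ U, p : ℕ) : ℝ) < D * (∏ q ∈ Q, q : ℕ)),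
        |FU 𝒜 ν a X g U|
      = ∑ U ∈ P.powerset.filter (fun U => ((∏ p ∈ U, p : ℕ) : ℝ) < D * (∏ q ∈ Q, q : ℕ)),
        |∑ i ∈ 𝒜.filter (fun i => (∏ p ∈ U, p) ∣ ν i), a i
          - X * ∏ p ∈ (∏ p ∈ U, p).primeFactors, g p| := by
        refine sum_congr rfl fun U hU => ?_
        have hU' := mem_powerset.1 (mem_filter.1 hU).1
        unfold FU
        rw [hpf U hU', sum_filter]
        simp only [hdiv U hU']
    _ = ∑ d ∈ (P.powerset.filter
          (fun U => ((∏ p ∈ U, p : ℕ) : ℝ) < D * (∏ q ∈ Q, q : ℕ))).image (fun U => ∏ p ∈ U, p),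
        |∑ i ∈ 𝒜.filter (fun i => d ∣ ν i), a i - X * ∏ p ∈ d.primeFactors, g p| := by
        rw [sum_image]
        intro U hU W hW hUW
        have hU' := mem_powerset.1 (mem_filter.1 (mem_coe.1 hU)).1
        have hW' := mem_powerset.1 (mem_filter.1 (mem_coe.1 hW)).1
        simp only at hUW
        rw [← hpf U hU', ← hpf W hW', hUW]
    _ ≤ _ := by
        apply sum_le_sum_of_subset_of_nonneg
        · intro d hd
          rw [mem_image] at hd
          obtain ⟨U, hU, rfl⟩ := hd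
          rw [mem_filter, mem_powerset] at hU
          rw [mem_filter, Nat.mem_divisors]
          exact ⟨⟨prod_dvd_prod_of_subset _ _ _ hU.1, hPne⟩, hU.2⟩
        · intro d _ _
          exact abs_nonneg _

/-- **The linear sieve.** -/
theorem linear_sieve : Stmt_Lin := by
  set F := fns with hF
  have hA := A_ge
  have hh3 := hh_pos 3
  have hhle : ∀ s, hh s ≤ 1 := by
    intro s
    unfold hh
    rw [Real.exp_le_one_iff]
    have := le_max_right s 2
    linarith
  set K := 2500 * F.C + 500 * (F.A + 6 * F.fm 2 + 2 * F.Jm 3) / hh 3 with hK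
  have hC := F.C_nonneg
  have hfm := F.fm_nonneg 2
  have hJm := F.Jm_nonneg 3
  have hA0 : 0 < F.A := by linarith
  have hK1 : 0 ≤ 500 * (F.A + 6 * F.fm 2 + 2 * F.Jm 3) / hh 3 := by positivity
  have hK0 : 0 ≤ K := by linarith
  refine ⟨F.A, hA0, fun δ hδ => ?_⟩
  refine ⟨min (1 / 2000) (δ / (K + 1)), by positivity, ?_⟩
  set ε := min (1 / 2000) (δ / (K + 1)) with hε
  have hε0 : 0 < ε := by positivity
  have hε1 : ε ≤ 1 / 2000 := min_le_left _ _
  have hε2 : K * ε ≤ δ := by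
    have : ε ≤ δ / (K + 1) := min_le_right _ _
    calc K * ε ≤ K * (δ / (K + 1)) := mul_le_mul_of_nonneg_left this hK0
      _ ≤ (K + 1) * (δ / (K + 1)) := by
          apply mul_le_mul_of_nonneg_right (by linarith) (by positivity)
      _ = δ := by field_simp
  intro P Q g hP hQP hg0 hg1 z D hz hPz hreg 𝒜 ν a ha X hX
  set P' := P \ Q with hP'
  have hsub : P' ⊆ P := sdiff_subset
  have hP2 : ∀ p ∈ P', 2 ≤ p := fun p hp => (hP p (hsub hp)).two_le
  have hg0' : ∀ p ∈ P', 0 ≤ g p := fun p hp => hg0 p (hsub hp)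
  have hg1' : ∀ p ∈ P', g p < 1 := fun p hp => hg1 p (hsub hp)
  have hPz' : ∀ p ∈ P', (p : ℝ) < z := fun p hp => hPz p (hsub hp)
  have hz1 : 1 < z := by linarith
  have hR := reg_of_hyp P' g ε z hε0.le hz hP2 hg1' hPz' hreg
  have hcl := claims P' g F ε K hP2 hg0' hg1' hε0.le hε1 hK0 (by linarith)
    (by rw [hK, add_mul, div_mul_cancel₀ _ hh3.ne']
        have : 0 ≤ 2500 * F.C * hh 3 := by positivity
        linarith) hR z hz1
  have hVz : V P' g z = ∏ p ∈ P', (1 - g p) := V_eq_all P' g z z hPz' le_rfl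
  have hVpos : 0 < V P' g z := V_pos P' g hg1' z
  have hVQ : 0 < ∏ q ∈ Q, (1 - g q) := prod_pos fun q hq => sub_pos.2 (hg1 q (hQP hq))
  have hprod : ∏ p ∈ P, (1 - g p) = (∏ q ∈ Q, (1 - g q)) * V P' g z := by
    rw [hVz, hP', mul_comm, prod_sdiff hQP]
  -- the sifted sum
  have hsift : Sift P' ⌈z⌉₊ 𝒜 ν (aQ 𝒜 Q ν a) = ∑ i ∈ 𝒜.filter (fun i => ∀ p ∈ P, ¬ p ∣ ν i), a i := by
    unfold Sift
    rw [sum_filter]
    refine sum_congr rfl fun i hi => ?_
    by_cases h : ∀ p ∈ P, ¬ p ∣ ν i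
    · rw [if_pos h, if_pos (fun p hp _ => h p (hsub hp))]
      unfold aQ
      rw [if_pos ⟨hi, fun q hq => h q (hQP hq)⟩]
    · rw [if_neg h]
      by_cases h1 : ∀ p ∈ P', p < ⌈z⌉₊ → ¬ p ∣ ν i
      · rw [if_pos h1]
        unfold aQ
        rw [if_neg]
        rintro ⟨_, h2⟩
        apply h
        intro p hp
        by_cases hq : p ∈ Q
        · exact h2 p hq
        · exact h1 p (mem_sdiff.2 ⟨hp, hq⟩) (Nat.lt_ceil.2 (hPz p hp))
      · rw [if_neg h1]
  have hanon : ∀ n, 0 ≤ aQ 𝒜 Q ν a n := by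
    intro n
    unfold aQ
    split_ifs with h
    · exact ha n h.1
    · exact le_rfl
  have hineq := sieve_ineq P' ⌈z⌉₊ 𝒜 ν (aQ 𝒜 Q ν a) hanon D
  rw [hsift] at hineq
  set r : Multiset ℕ → ℝ := fun m => AA 𝒜 ν (aQ 𝒜 Q ν a) m - X * (∏ q ∈ Q, (1 - g q)) * GG g m
    with hr
  have hMdec : ∀ s : Bool, M P' ⌈z⌉₊ s D (AA 𝒜 ν (aQ 𝒜 Q ν a))
      = X * (∏ q ∈ Q, (1 - g q)) * M P' ⌈z⌉₊ s D (GG g) + M P' ⌈z⌉₊ s D r := by
    intro s
    rw [← M_smul, ← M_add]
    congr 1
    funext m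
    rw [hr]
    ring
  have hXV : 0 ≤ X * (∏ q ∈ Q, (1 - g q)) := mul_nonneg hX hVQ.le
  set Rd := ∑ d ∈ (∏ p ∈ P, p).divisors.filter (fun d : ℕ => (d : ℝ) < D * (∏ q ∈ Q, q : ℕ)),
        |∑ i ∈ 𝒜.filter (fun i => d ∣ ν i), a i - X * ∏ p ∈ d.primeFactors, g p| with hRd
  have hrem : ∀ s : Bool, 1 < D → (s = false → (⌈z⌉₊ : ℝ) ≤ D) → |M P' ⌈z⌉₊ s D r| ≤ Rd := by
    intro s hD hs
    refine le_trans (abs_M_le P' hP2 ⌈z⌉₊ s D r hD hs) (le_trans ?_ (RU_le P Q hP D 𝒜 ν a X g))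
    exact Tot_le P Q hQP hP ⌈z⌉₊ D (by linarith) 𝒜 ν a X g
  have hlz : 0 < Real.log z := Real.log_pos hz1
  constructor
  · intro hzD hDz
    have hD1 : 1 < D := by linarith
    have hlD : 0 < Real.log D := Real.log_pos hD1
    set s := Real.log D / Real.log z with hs
    have hs3 : s ≤ 3 := by
      rw [hs, div_le_iff₀ hlz]
      have := Real.log_le_log (by linarith) hDz
      rw [Real.log_pow] at this
      push_cast at this
      linarith
    have hs1 : 1 ≤ s := by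
      rw [hs, le_div_iff₀ hlz]
      have := Real.log_le_log (by linarith) hzD
      linarith
    have h1 := hcl.1 D hzD
    rw [← hs, F.fp_small s hs1 hs3] at h1
    have h2 := (abs_le.1 (hrem true hD1 (by simp))).2
    have h3 : M P' ⌈z⌉₊ true D (GG g) ≤ V P' g z * (F.A / s + δ) := by
      have e1 : K * ε * hh s ≤ δ := by
        calc K * ε * hh s ≤ K * ε * 1 :=
              mul_le_mul_of_nonneg_left (hhle s) (by positivity)
          _ ≤ δ := by linarith
      have e2 := mul_le_mul_of_nonneg_left e1 hVpos.le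
      nlinarith
    have h4 := mul_le_mul_of_nonneg_left h3 hXV
    have h5 := hineq.2
    rw [hMdec true] at h5
    rw [hprod]
    calc ∑ i ∈ 𝒜.filter (fun i => ∀ p ∈ P, ¬ p ∣ ν i), a i
        ≤ X * (∏ q ∈ Q, (1 - g q)) * M P' ⌈z⌉₊ true D (GG g) + M P' ⌈z⌉₊ true D r := h5
      _ ≤ X * (∏ q ∈ Q, (1 - g q)) * (V P' g z * (F.A / s + δ)) + Rd := add_le_add h4 h2
      _ = _ := by ring
  · intro hzD hDz
    have hD1 : 1 < D := by nlinarith
    have hlD : 0 < Real.log D := Real.log_pos hD1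
    set s := Real.log D / Real.log z with hs
    have hs4 : s ≤ 4 := by
      rw [hs, div_le_iff₀ hlz]
      have := Real.log_le_log (by linarith) hDz
      rw [Real.log_pow] at this
      push_cast at this
      linarith
    have hs2 : 2 ≤ s := by
      rw [hs, le_div_iff₀ hlz]
      have := Real.log_le_log (by positivity) hzD
      rw [Real.log_pow] at this
      push_cast at this
      linarith
    have hceil : (⌈z⌉₊ : ℝ) ≤ D := by
      have := Nat.ceil_lt_add_one (by linarith : 0 ≤ z)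
      nlinarith
    have h1 := hcl.2 D hzD
    rw [← hs] at h1
    have h0 := F.fm_small s hs2 hs4
    have h2 := (abs_le.1 (hrem false hD1 (fun _ => hceil))).1
    have h3 : V P' g z * (F.A * Real.log (s - 1) / s - δ) ≤ M P' ⌈z⌉₊ false D (GG g) := by
      rw [← h0]
      have e1 : K * ε * hh s ≤ δ := by
        calc K * ε * hh s ≤ K * ε * 1 :=
              mul_le_mul_of_nonneg_left (hhle s) (by positivity)
          _ ≤ δ := by linarith
      have e2 := mul_le_mul_of_nonneg_left e1 hVpos.le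
      nlinarith
    have h4 := mul_le_mul_of_nonneg_left h3 hXV
    have h5 := hineq.1
    rw [hMdec false] at h5
    rw [hprod]
    calc X * ((∏ q ∈ Q, (1 - g q)) * V P' g z) * (F.A * Real.log (s - 1) / s - δ) - Rd
        = X * (∏ q ∈ Q, (1 - g q)) * (V P' g z * (F.A * Real.log (s - 1) / s - δ)) + -Rd := by ring
      _ ≤ X * (∏ q ∈ Q, (1 - g q)) * M P' ⌈z⌉₊ false D (GG g) + M P' ⌈z⌉₊ false D r :=
          add_le_add h4 h2
      _ ≤ _ := h5

end Pool.Agent.LinearSieve
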