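import Pool.Agent.Work.LinearSieve.Induct

/-!
# The linear sieve: the final statement
-/

set_option autoImplicit false

namespace Pool.Agent.LinearSieve

open Finset
open scoped Classical

/-- **The linear sieve** (Jurkat–Richert) on the ranges `1 ≤ s ≤ 3` (upper bound, `F(s) = A / s`)
and `2 ≤ s ≤ 4` (lower bound, `f(s) = A log (s - 1) / s`). `P`: sieving primes, `Q ⊆ P` a set of
small primes for which no density condition is required, `ν i` the integer attached to the index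
`i`, `a i ≥ 0` its weight. -/
def Stmt_Lin : Prop := ∃ A : ℝ, 0 < A ∧ ∀ δ : ℝ, 0 < δ → ∃ ε : ℝ, 0 < ε ∧
  ∀ (P Q : Finset ℕ) (g : ℕ → ℝ),
  (∀ p ∈ P, p.Prime) → Q ⊆ P → (∀ p ∈ P, 0 ≤ g p) → (∀ p ∈ P, g p < 1) →
  ∀ (z D : ℝ), 2 ≤ z → (∀ p ∈ P, (p : ℝ) < z) →
  (∀ u w : ℝ, 2 ≤ u → u ≤ w → w ≤ z → 1 ≤ (1 + ε) * (Real.log w / Real.log u) *
    ∏ p ∈ (P \ Q).filter (fun p : ℕ => u ≤ (p : ℝ) ∧ (p : ℝ) < w), (1 - g p)) →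
  ∀ (𝒜 : Finset ℕ) (ν : ℕ → ℕ) (a : ℕ → ℝ), (∀ i ∈ 𝒜, 0 ≤ a i) →
  ∀ X : ℝ, 0 ≤ X →
  (z ≤ D → D ≤ z ^ 3 → ∑ i ∈ 𝒜.filter (fun i => ∀ p ∈ P, ¬ p ∣ ν i), a i ≤
    X * (∏ p ∈ P, (1 - g p)) * (A / (Real.log D / Real.log z) + δ) +
      ∑ d ∈ (∏ p ∈ P, p).divisors.filter (fun d : ℕ => (d : ℝ) < D * (∏ q ∈ Q, q : ℕ)),
        |∑ i ∈ 𝒜.filter (fun i => d ∣ ν i), a i - X * ∏ p ∈ d.primeFactors, g p|) ∧
  (z ^ 2 ≤ D → D ≤ z ^ 4 → X * (∏ p ∈ P, (1 - g p)) *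
      (A * Real.log (Real.log D / Real.log z - 1) / (Real.log D / Real.log z) - δ) -
      ∑ d ∈ (∏ p ∈ P, p).divisors.filter (fun d : ℕ => (d : ℝ) < D * (∏ q ∈ Q, q : ℕ)),
        |∑ i ∈ 𝒜.filter (fun i => d ∣ ν i), a i - X * ∏ p ∈ d.primeFactors, g p| ≤
    ∑ i ∈ 𝒜.filter (fun i => ∀ p ∈ P, ¬ p ∣ ν i), a i)

end Pool.Agent.LinearSieve
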