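import Pool.Agent.Work.LinearSieve.Basic

/-!
# The linear sieve: partial summation
-/

set_option autoImplicit false

namespace Pool.Agent.LinearSieve

open Finset
open scoped Classical

/-- Partial sums from `w` to `z`. -/
noncomputable def Bs (P : Finset ℕ) (g : ℕ → ℝ) (D z : ℝ) (Φ : ℝ → ℝ) (w : ℝ) : ℝ :=
  ∑ p ∈ P.filter (fun p : ℕ => w ≤ (p : ℝ) ∧ (p : ℝ) < z),
    g p * (V P g p * Φ (Real.log D / Real.log p - 1))

/-- The invariant of the partial summation. -/
def Inv (P : Finset ℕ) (g : ℕ → ℝ) (D z δ : ℝ) (Φ Ψ : ℝ → ℝ) (w : ℝ) : Prop :=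
  Bs P g D z Φ w + (V P g z * ((1 + δ) * (Real.log z / Real.log w)) - V P g w)
      * Φ (Real.log D / Real.log w - 1)
    ≤ V P g z * (δ * Φ (Real.log D / Real.log z - 1) + (1 + δ) / (Real.log D / Real.log z)
        * (Ψ (Real.log D / Real.log z) - Ψ (Real.log D / Real.log w)))

lemma inv_start (P : Finset ℕ) (g : ℕ → ℝ) (D z δ : ℝ) (Φ Ψ : ℝ → ℝ) (hz : 1 < z) :
    Inv P g D z δ Φ Ψ z := by
  unfold Inv Bs
  have h1 : P.filter (fun p : ℕ => z ≤ (p : ℝ) ∧ (p : ℝ) < z) = ∅ := by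
    apply filter_false_of_mem
    rintro p _ ⟨h1, h2⟩
    linarith
  have hl : Real.log z ≠ 0 := (Real.log_pos hz).ne'
  rw [h1, sum_empty, div_self hl]
  apply le_of_eq
  ring

lemma V_step (P : Finset ℕ) (g : ℕ → ℝ) (n : ℕ) (w : ℝ) (h1 : (n : ℝ) < w) (h2 : w ≤ n + 1) :
    V P g n = V P g w + (if n ∈ P then g n * V P g n else 0) := by
  have h3 : V P g w = V P g ((n + 1 : ℕ) : ℝ) := by
    unfold V
    congr 1
    ext p
    simp only [mem_filter, and_congr_right_iff]
    intro _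
    constructor
    · intro h
      have : (p : ℝ) < n + 1 := lt_of_lt_of_le h h2
      push_cast
      exact this
    · intro h
      have h4 : p < n + 1 := by exact_mod_cast h
      have h5 : (p : ℝ) ≤ n := by exact_mod_cast Nat.lt_succ_iff.1 h4
      linarith
  rw [h3]
  by_cases hn : n ∈ P
  · rw [V_succ P g n hn, if_pos hn]; ring
  · rw [V_succ_of_notMem P g n hn, if_neg hn]; ring

lemma Bs_step (P : Finset ℕ) (g : ℕ → ℝ) (D z : ℝ) (Φ : ℝ → ℝ) (n : ℕ) (w : ℝ)
    (h1 : (n : ℝ) < w) (h2 : w ≤ n + 1) (hwz : w ≤ z) :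
    Bs P g D z Φ n = Bs P g D z Φ w
      + (if n ∈ P then g n * V P g n else 0) * Φ (Real.log D / Real.log n - 1) := by
  unfold Bs
  by_cases hn : n ∈ P
  · have h3 : P.filter (fun p : ℕ => (n : ℝ) ≤ (p : ℝ) ∧ (p : ℝ) < z)
        = insert n (P.filter (fun p : ℕ => w ≤ (p : ℝ) ∧ (p : ℝ) < z)) := by
      ext p
      simp only [mem_filter, mem_insert]
      constructor
      · rintro ⟨hp, h4, h5⟩
        rcases eq_or_lt_of_le h4 with h6 | h6
        · left; exact_mod_cast h6.symm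
        · right
          refine ⟨hp, ?_, h5⟩
          have h7 : n < p := by exact_mod_cast h6
          have h8 : ((n + 1 : ℕ) : ℝ) ≤ p := by exact_mod_cast h7
          push_cast at h8
          linarith
      · rintro (h4 | ⟨hp, h4, h5⟩)
        · subst h4
          exact ⟨hn, le_rfl, by linarith⟩
        · exact ⟨hp, by linarith, h5⟩
    rw [h3, sum_insert, if_pos hn]
    · ring
    · intro h
      have := (mem_filter.1 h).2.1
      linarith
  · have h3 : P.filter (fun p : ℕ => (n : ℝ) ≤ (p : ℝ) ∧ (p : ℝ) < z)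
        = P.filter (fun p : ℕ => w ≤ (p : ℝ) ∧ (p : ℝ) < z) := by
      ext p
      simp only [mem_filter]
      constructor
      · rintro ⟨hp, h4, h5⟩
        refine ⟨hp, ?_, h5⟩
        rcases eq_or_lt_of_le h4 with h6 | h6
        · exfalso
          have : n = p := by exact_mod_cast h6
          exact hn (this ▸ hp)
        · have h7 : n < p := by exact_mod_cast h6
          have h8 : ((n + 1 : ℕ) : ℝ) ≤ p := by exact_mod_cast h7
          push_cast at h8
          linarith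
      · rintro ⟨hp, h4, h5⟩
        exact ⟨hp, by linarith, h5⟩
    rw [h3, if_neg hn]
    ring

lemma inv_step (P : Finset ℕ) (g : ℕ → ℝ) (D z δ : ℝ) (Φ Ψ : ℝ → ℝ)
    (hg1 : ∀ p ∈ P, g p < 1) (hD : 1 < D) (hδ : 0 ≤ δ)
    (hΦ : Antitone Φ) (hΨ : ∀ t₁ t₂, t₁ ≤ t₂ → (t₂ - t₁) * Φ (t₂ - 1) ≤ Ψ t₁ - Ψ t₂)
    (hreg : ∀ w, 2 ≤ w → w ≤ z → V P g w ≤ V P g z * ((1 + δ) * (Real.log z / Real.log w)))
    (n : ℕ) (hn : 2 ≤ n) (w : ℝ) (h1 : (n : ℝ) < w) (h2 : w ≤ n + 1) (hwz : w ≤ z)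
    (hI : Inv P g D z δ Φ Ψ w) : Inv P g D z δ Φ Ψ n := by
  unfold Inv at hI ⊢
  rw [Bs_step P g D z Φ n w h1 h2 hwz]
  have hV := V_step P g n w h1 h2
  have hn2 : (2 : ℝ) ≤ n := by exact_mod_cast hn
  have hreg' := hreg w (by linarith) hwz
  have hln : 0 < Real.log n := Real.log_pos (by linarith)
  have hlw : 0 < Real.log w := Real.log_pos (by linarith)
  have hlz : 0 < Real.log z := Real.log_pos (by linarith)
  have hlD : 0 < Real.log D := Real.log_pos hD
  have hlnw : Real.log n ≤ Real.log w := Real.log_le_log (by linarith) h1.le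
  have ht : Real.log D / Real.log w ≤ Real.log D / Real.log n :=
    div_le_div_of_nonneg_left hlD.le hln hlnw
  have hΦ' := hΦ (sub_le_sub_right ht 1)
  have hΨ' := hΨ _ _ ht
  have hVz : 0 < V P g z := V_pos P g hg1 z
  have e1 : Real.log z / Real.log n - Real.log z / Real.log w
      = (Real.log D / Real.log n - Real.log D / Real.log w) / (Real.log D / Real.log z) := by
    field_simp
  set X := (if n ∈ P then g n * V P g n else 0) with hX
  set Φn := Φ (Real.log D / Real.log n - 1) with hΦn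
  set Φw := Φ (Real.log D / Real.log w - 1) with hΦw
  set s := Real.log D / Real.log z with hs
  have hs0 : 0 < s := by positivity
  set tn := Real.log D / Real.log n with htn
  set tw := Real.log D / Real.log w with htw
  set ln := Real.log z / Real.log n with hln'
  set lw := Real.log z / Real.log w with hlw'
  have e2 : (V P g z * ((1 + δ) * lw) - V P g w) * Φn
      ≤ (V P g z * ((1 + δ) * lw) - V P g w) * Φw :=
    mul_le_mul_of_nonneg_left hΦ' (by linarith)
  have e3 : V P g z * ((1 + δ) / s) * ((tn - tw) * Φn) ≤ V P g z * ((1 + δ) / s) * (Ψ tw - Ψ tn) :=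
    mul_le_mul_of_nonneg_left hΨ' (by positivity)
  have e4 : ln = lw + (tn - tw) / s := by linarith
  rw [hV, e4]
  have e5 : Bs P g D z Φ w + X * Φn + (V P g z * ((1 + δ) * (lw + (tn - tw) / s)) - (V P g w + X)) * Φn
      = Bs P g D z Φ w + (V P g z * ((1 + δ) * lw) - V P g w) * Φn
        + V P g z * ((1 + δ) / s) * ((tn - tw) * Φn) := by
    ring
  rw [e5]
  have e6 : V P g z * (δ * Φ (s - 1) + (1 + δ) / s * (Ψ s - Ψ tn))
      = V P g z * (δ * Φ (s - 1) + (1 + δ) / s * (Ψ s - Ψ tw))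
        + V P g z * ((1 + δ) / s) * (Ψ tw - Ψ tn) := by
    ring
  rw [e6]
  linarith

/-- Partial summation. -/
theorem abel (P : Finset ℕ) (g : ℕ → ℝ) (D z δ : ℝ) (Φ Ψ : ℝ → ℝ) (hP : ∀ p ∈ P, 2 ≤ p)
    (hg1 : ∀ p ∈ P, g p < 1) (hz : 1 < z) (hD : 1 < D) (hδ : 0 ≤ δ)
    (hΦ : Antitone Φ) (hΦ0 : ∀ t, 0 ≤ Φ t) (hΨ0 : ∀ t, 0 ≤ Ψ t)
    (hΨ : ∀ t₁ t₂, t₁ ≤ t₂ → (t₂ - t₁) * Φ (t₂ - 1) ≤ Ψ t₁ - Ψ t₂)
    (hreg : ∀ w, 2 ≤ w → w ≤ z → V P g w ≤ V P g z * ((1 + δ) * (Real.log z / Real.log w))) :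
    ∑ p ∈ P.filter (fun p : ℕ => (p : ℝ) < z), g p * (V P g p * Φ (Real.log D / Real.log p - 1))
      ≤ V P g z * (δ * Φ (Real.log D / Real.log z - 1) + (1 + δ) / (Real.log D / Real.log z)
        * Ψ (Real.log D / Real.log z)) := by
  have hlz : 0 < Real.log z := Real.log_pos hz
  have hlD : 0 < Real.log D := Real.log_pos hD
  have hVz : 0 < V P g z := V_pos P g hg1 z
  have hs0 : 0 < Real.log D / Real.log z := by positivity
  rcases le_or_gt z 2 with hz2 | hz2
  · have h1 : P.filter (fun p : ℕ => (p : ℝ) < z) = ∅ := by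
      apply filter_false_of_mem
      intro p hp h
      have : (2 : ℝ) ≤ p := by exact_mod_cast hP p hp
      linarith
    rw [h1, sum_empty]
    have := hΦ0 (Real.log D / Real.log z - 1)
    have := hΨ0 (Real.log D / Real.log z)
    positivity
  · set n0 := ⌈z⌉₊ - 1 with hn0
    have hc : 3 ≤ ⌈z⌉₊ := by
      have : 2 < ⌈z⌉₊ := Nat.lt_ceil.2 (by exact_mod_cast hz2)
      omega
    have hn0' : ⌈z⌉₊ = n0 + 1 := by omega
    have hn02 : 2 ≤ n0 := by omega
    have h1 : (n0 : ℝ) < z := by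
      have : n0 < ⌈z⌉₊ := by omega
      exact Nat.lt_ceil.1 this
    have h2 : z ≤ n0 + 1 := by
      have := Nat.le_ceil z
      rw [hn0'] at this
      exact_mod_cast this
    have hI0 : Inv P g D z δ Φ Ψ n0 := inv_step P g D z δ Φ Ψ hg1 hD hδ hΦ hΨ hreg n0 hn02 z h1 h2
      le_rfl (inv_start P g D z δ Φ Ψ hz)
    have hI : ∀ k n : ℕ, n0 = n + k → 2 ≤ n → Inv P g D z δ Φ Ψ n := by
      intro k
      induction k with
      | zero =>
        intro n h3 _
        have : n = n0 := by omega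
        rw [this]; exact hI0
      | succ k ih =>
        intro n h3 h4
        have h5 := ih (n + 1) (by omega) (by omega)
        have h6 : ((n + 1 : ℕ) : ℝ) ≤ n0 := by
          have : n + 1 ≤ n0 := by omega
          exact_mod_cast this
        refine inv_step P g D z δ Φ Ψ hg1 hD hδ hΦ hΨ hreg n h4 ((n + 1 : ℕ) : ℝ) ?_ ?_ ?_ h5
        · push_cast; linarith
        · push_cast; linarith
        · linarith
    have hI2 := hI (n0 - 2) 2 (by omega) le_rfl
    unfold Inv Bs at hI2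
    have hf : P.filter (fun p : ℕ => ((2 : ℕ) : ℝ) ≤ (p : ℝ) ∧ (p : ℝ) < z)
        = P.filter (fun p : ℕ => (p : ℝ) < z) := by
      ext p
      simp only [mem_filter, and_congr_right_iff, and_iff_right_iff_imp]
      intro hp _
      exact_mod_cast hP p hp
    rw [hf] at hI2
    have h7 := hreg ((2 : ℕ) : ℝ) (by norm_num) (by push_cast; linarith)
    have h8 := hΦ0 (Real.log D / Real.log ((2 : ℕ) : ℝ) - 1)
    have h9 := hΨ0 (Real.log D / Real.log ((2 : ℕ) : ℝ))
    have h10 : 0 ≤ (V P g z * ((1 + δ) * (Real.log z / Real.log ((2 : ℕ) : ℝ)))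
        - V P g ((2 : ℕ) : ℝ)) * Φ (Real.log D / Real.log ((2 : ℕ) : ℝ) - 1) :=
      mul_nonneg (by linarith) h8
    have h11 : 0 ≤ V P g z * ((1 + δ) / (Real.log D / Real.log z)
        * Ψ (Real.log D / Real.log ((2 : ℕ) : ℝ))) := by positivity
    calc ∑ p ∈ P.filter (fun p : ℕ => (p : ℝ) < z), g p * (V P g p * Φ (Real.log D / Real.log p - 1))
        ≤ V P g z * (δ * Φ (Real.log D / Real.log z - 1) + (1 + δ) / (Real.log D / Real.log z)
        * (Ψ (Real.log D / Real.log z) - Ψ (Real.log D / Real.log ((2 : ℕ) : ℝ)))) := by linarith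
      _ = V P g z * (δ * Φ (Real.log D / Real.log z - 1) + (1 + δ) / (Real.log D / Real.log z)
        * Ψ (Real.log D / Real.log z)) - V P g z * ((1 + δ) / (Real.log D / Real.log z)
        * Ψ (Real.log D / Real.log ((2 : ℕ) : ℝ))) := by ring
      _ ≤ _ := by linarith

/-- Telescoping. -/
lemma sum_gV (P : Finset ℕ) (g : ℕ → ℝ) (z : ℕ) :
    ∑ p ∈ P.filter (· < z), g p * V P g p = 1 - V P g z := by
  induction z with
  | zero =>
    have hV : V P g ((0 : ℕ) : ℝ) = 1 := by rw [Nat.cast_zero]; exact V_zero P g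
    rw [hV]; simp
  | succ z ih =>
    by_cases hz : z ∈ P
    · rw [filter_lt_succ_of_mem P z hz, sum_insert (by simp), ih, V_succ P g z hz]
      ring
    · rw [filter_lt_succ_of_notMem P z hz, ih, V_succ_of_notMem P g z hz]

lemma V_ceil (P : Finset ℕ) (g : ℕ → ℝ) (w : ℝ) : V P g w = V P g (⌈w⌉₊ : ℝ) := by
  unfold V
  congr 1
  ext p
  simp only [mem_filter, and_congr_right_iff]
  intro _
  rw [Nat.cast_lt, Nat.lt_ceil]

lemma filter_ceil (P : Finset ℕ) (w : ℝ) :
    P.filter (· < ⌈w⌉₊) = P.filter (fun p : ℕ => (p : ℝ) < w) := by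
  ext p
  simp only [mem_filter, and_congr_right_iff]
  intro _
  rw [Nat.lt_ceil]

lemma sum_gV_real (P : Finset ℕ) (g : ℕ → ℝ) (w : ℝ) :
    ∑ p ∈ P.filter (fun p : ℕ => (p : ℝ) < w), g p * V P g p = 1 - V P g w := by
  rw [← filter_ceil, sum_gV, ← V_ceil]

end Pool.Agent.LinearSieve
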