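import Mathlib

/-!
# The linear sieve: combinatorial part

`M P z s D φ` is the functional `∑_d λ^±(d) φ(d)` of the upper (`s = true`) and lower
(`s = false`) linear sieve of level `D` for the primes of `P` below `z`.
-/

set_option autoImplicit false

namespace Pool.Agent.LinearSieve

open Finset
open scoped Classical

/-- The sieve functional of level `D` with sifting primes in `P`, below `z`;
`s = true`: upper bound sieve, `s = false`: lower bound sieve. -/
noncomputable def M (P : Finset ℕ) : ℕ → Bool → ℝ → (Multiset ℕ → ℝ) → ℝ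
  | 0, _, _, φ => φ 0
  | z + 1, s, D, φ => M P z s D φ -
      if z ∈ P ∧ (s = true → (z : ℝ) ^ 3 < D) then M P z (!s) (D / z) (fun m => φ (z ::ₘ m)) else 0

/-- Total absolute value over products below `D`. -/
noncomputable def Tot (P : Finset ℕ) (z : ℕ) (D : ℝ) (φ : Multiset ℕ → ℝ) : ℝ :=
  ∑ T ∈ (P.filter (· < z)).powerset, if ((∏ p ∈ T, p : ℕ) : ℝ) < D then |φ T.val| else 0

lemma filter_lt_succ_of_mem (P : Finset ℕ) (z : ℕ) (hz : z ∈ P) :
    P.filter (· < z + 1) = insert z (P.filter (· < z)) := by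
  ext x
  simp only [mem_filter, mem_insert]
  constructor
  · rintro ⟨h1, h2⟩
    rcases Nat.lt_succ_iff_lt_or_eq.1 h2 with h | h
    · exact Or.inr ⟨h1, h⟩
    · exact Or.inl h
  · rintro (h | ⟨h1, h2⟩)
    · subst h; exact ⟨hz, Nat.lt_succ_self _⟩
    · exact ⟨h1, by omega⟩

lemma filter_lt_succ_of_notMem (P : Finset ℕ) (z : ℕ) (hz : z ∉ P) :
    P.filter (· < z + 1) = P.filter (· < z) := by
  ext x
  simp only [mem_filter]
  constructor
  · rintro ⟨h1, h2⟩
    refine ⟨h1, ?_⟩
    rcases Nat.lt_succ_iff_lt_or_eq.1 h2 with h | h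
    · exact h
    · subst h; exact absurd h1 hz
  · rintro ⟨h1, h2⟩
    exact ⟨h1, by omega⟩

/-- Linearity of the functional. -/
lemma M_add (P : Finset ℕ) (z : ℕ) : ∀ (s : Bool) (D : ℝ) (φ ψ : Multiset ℕ → ℝ),
    M P z s D (fun m => φ m + ψ m) = M P z s D φ + M P z s D ψ := by
  induction z with
  | zero => intro s D φ ψ; simp [M]
  | succ z ih =>
    intro s D φ ψ
    simp only [M]
    rw [ih]
    split_ifs
    · rw [ih]; ring
    · ring

lemma M_smul (P : Finset ℕ) (z : ℕ) : ∀ (s : Bool) (D c : ℝ) (φ : Multiset ℕ → ℝ),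
    M P z s D (fun m => c * φ m) = c * M P z s D φ := by
  induction z with
  | zero => intro s D c φ; simp [M]
  | succ z ih =>
    intro s D c φ
    simp only [M]
    rw [ih]
    split_ifs
    · rw [ih]; ring
    · ring

lemma Tot_succ (P : Finset ℕ) (z : ℕ) (hz : z ∈ P) (hz0 : 0 < z) (D : ℝ) (φ : Multiset ℕ → ℝ) :
    Tot P (z + 1) D φ = Tot P z D φ + Tot P z (D / z) (fun m => φ (z ::ₘ m)) := by
  unfold Tot
  rw [filter_lt_succ_of_mem P z hz, sum_powerset_insert (by simp)]
  congr 1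
  refine sum_congr rfl fun T hT => ?_
  have hzT : z ∉ T := by
    intro h
    have := mem_powerset.1 hT h
    simp at this
  rw [prod_insert hzT, insert_val_of_notMem hzT]
  have hz' : (0 : ℝ) < z := by exact_mod_cast hz0
  have : (((z * ∏ p ∈ T, p : ℕ) : ℝ) < D) ↔ (((∏ p ∈ T, p : ℕ) : ℝ) < D / z) := by
    rw [lt_div_iff₀ hz', Nat.cast_mul, mul_comm]
  by_cases h : (((∏ p ∈ T, p : ℕ) : ℝ) < D / z)
  · rw [if_pos h, if_pos (this.2 h)]
  · rw [if_neg h, if_neg (fun h' => h (this.1 h'))]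

lemma Tot_succ_of_notMem (P : Finset ℕ) (z : ℕ) (hz : z ∉ P) (D : ℝ) (φ : Multiset ℕ → ℝ) :
    Tot P (z + 1) D φ = Tot P z D φ := by
  unfold Tot
  rw [filter_lt_succ_of_notMem P z hz]

lemma Tot_nonneg (P : Finset ℕ) (z : ℕ) (D : ℝ) (φ : Multiset ℕ → ℝ) : 0 ≤ Tot P z D φ :=
  sum_nonneg fun T _ => by split_ifs <;> positivity

/-- The remainder term of the sieve. -/
lemma abs_M_le (P : Finset ℕ) (hP : ∀ p ∈ P, 2 ≤ p) (z : ℕ) : ∀ (s : Bool) (D : ℝ)
    (φ : Multiset ℕ → ℝ), 1 < D → (s = false → (z : ℝ) ≤ D) → |M P z s D φ| ≤ Tot P z D φ := by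
  induction z with
  | zero =>
    intro s D φ hD _
    simp [M, Tot, hD]
  | succ z ih =>
    intro s D φ hD hs
    have hs' : s = false → (z : ℝ) ≤ D := fun h => le_trans (by push_cast; linarith) (hs h)
    simp only [M]
    by_cases hz : z ∈ P
    · have hz2 : (2 : ℝ) ≤ z := by exact_mod_cast hP z hz
      have hz0 : (0 : ℝ) < z := by linarith
      rw [Tot_succ P z hz (by have := hP z hz; omega)]
      split_ifs with hc
      · refine le_trans (abs_sub _ _) (add_le_add (ih s D φ hD hs') ?_)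
        apply ih
        · rw [lt_div_iff₀ hz0, one_mul]
          cases s with
          | true =>
            have := hc.2 rfl
            nlinarith [mul_pos hz0 hz0]
          | false =>
            have := hs rfl
            push_cast at this
            linarith
        · intro h
          have h1 : s = true := by
            cases s with
            | true => rfl
            | false => simp at h
          have := hc.2 h1
          rw [le_div_iff₀ hz0]
          nlinarith [mul_pos hz0 hz0]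
      · rw [sub_zero]
        have := Tot_nonneg P z (D / z) (fun m => φ (z ::ₘ m))
        linarith [ih s D φ hD hs']
    · rw [Tot_succ_of_notMem P z hz, if_neg (fun h => hz h.1), sub_zero]
      exact ih s D φ hD hs'

/-- The sifted sum; `ν i` is the integer attached to the index `i`, with weight `a i`. -/
noncomputable def Sift (P : Finset ℕ) (z : ℕ) (S : Finset ℕ) (ν : ℕ → ℕ) (a : ℕ → ℝ) : ℝ :=
  ∑ n ∈ S, if ∀ p ∈ P, p < z → ¬ p ∣ ν n then a n else 0

/-- The function `m ↦ |A_m|`. -/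
noncomputable def AA (S : Finset ℕ) (ν : ℕ → ℕ) (a : ℕ → ℝ) (m : Multiset ℕ) : ℝ :=
  ∑ n ∈ S, if ∀ q ∈ m, q ∣ ν n then a n else 0

lemma Sift_nonneg (P : Finset ℕ) (z : ℕ) (S : Finset ℕ) (ν : ℕ → ℕ) (a : ℕ → ℝ)
    (ha : ∀ n, 0 ≤ a n) : 0 ≤ Sift P z S ν a := sum_nonneg fun n _ => by split_ifs; exacts [ha n, le_rfl]

lemma Sift_succ (P : Finset ℕ) (z : ℕ) (hz : z ∈ P) (S : Finset ℕ) (ν : ℕ → ℕ) (a : ℕ → ℝ) :
    Sift P (z + 1) S ν a = Sift P z S ν a - Sift P z S ν (fun n => if z ∣ ν n then a n else 0) := by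
  unfold Sift
  rw [← sum_sub_distrib]
  refine sum_congr rfl fun n _ => ?_
  by_cases h : ∀ p ∈ P, p < z → ¬ p ∣ ν n
  · rw [if_pos h, if_pos h]
    show _ = a n - (if z ∣ ν n then a n else 0)
    by_cases hd : z ∣ ν n
    · rw [if_pos hd, if_neg, sub_self]
      intro h'
      exact h' z hz (Nat.lt_succ_self z) hd
    · rw [if_neg hd, sub_zero, if_pos]
      intro p hp hpz
      rcases Nat.lt_succ_iff_lt_or_eq.1 hpz with h1 | h1
      · exact h p hp h1
      · subst h1; exact hd
  · rw [if_neg h, if_neg h, sub_zero, if_neg]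
    intro h'
    exact h fun p hp hpz => h' p hp (by omega)

lemma Sift_succ_of_notMem (P : Finset ℕ) (z : ℕ) (hz : z ∉ P) (S : Finset ℕ) (ν : ℕ → ℕ)
    (a : ℕ → ℝ) : Sift P (z + 1) S ν a = Sift P z S ν a := by
  unfold Sift
  refine sum_congr rfl fun n _ => ?_
  have : (∀ p ∈ P, p < z + 1 → ¬ p ∣ ν n) ↔ (∀ p ∈ P, p < z → ¬ p ∣ ν n) := by
    constructor
    · intro h p hp hpz; exact h p hp (by omega)
    · intro h p hp hpz
      rcases Nat.lt_succ_iff_lt_or_eq.1 hpz with h1 | h1
      · exact h p hp h1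
      · subst h1; exact absurd hp hz
  simp only [this]

lemma AA_cons (S : Finset ℕ) (ν : ℕ → ℕ) (a : ℕ → ℝ) (z : ℕ) :
    (fun m => AA S ν a (z ::ₘ m)) = AA S ν (fun n => if z ∣ ν n then a n else 0) := by
  funext m
  unfold AA
  refine sum_congr rfl fun n _ => ?_
  by_cases h1 : z ∣ ν n
  · simp [h1]
  · simp [h1]

/-- The sieve inequalities. -/
lemma sieve_ineq (P : Finset ℕ) (z : ℕ) (S : Finset ℕ) (ν : ℕ → ℕ) :
    ∀ (a : ℕ → ℝ) (_ : ∀ n, 0 ≤ a n) (D : ℝ), M P z false D (AA S ν a) ≤ Sift P z S ν a ∧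
      Sift P z S ν a ≤ M P z true D (AA S ν a) := by
  induction z with
  | zero =>
    intro a _ D
    simp [M, AA, Sift]
  | succ z ih =>
    intro a ha D
    have ha' : ∀ n, 0 ≤ (fun n => if z ∣ ν n then a n else 0) n := by
      intro n; simp only; split_ifs; exacts [ha n, le_rfl]
    simp only [M]
    by_cases hz : z ∈ P
    · rw [Sift_succ P z hz, AA_cons]
      have h1 := ih a ha D
      have h2 := ih _ ha' (D / z)
      have h3 := Sift_nonneg P z S ν _ ha'
      constructor
      · rw [if_pos ⟨hz, by simp⟩]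
        simp only [Bool.not_false]
        linarith
      · simp only [Bool.not_true]
        split_ifs <;> linarith
    · rw [Sift_succ_of_notMem P z hz, if_neg (fun h => hz h.1), if_neg (fun h => hz h.1)]
      have h1 := ih a ha D
      constructor <;> linarith

/-! ### Main terms -/

/-- The completely multiplicative function. -/
noncomputable def GG (g : ℕ → ℝ) (m : Multiset ℕ) : ℝ := (m.map g).prod

lemma GG_cons (g : ℕ → ℝ) (z : ℕ) : (fun m => GG g (z ::ₘ m)) = fun m => g z * GG g m := by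
  funext m
  simp [GG]

lemma GG_val (g : ℕ → ℝ) (T : Finset ℕ) : GG g T.val = ∏ p ∈ T, g p := rfl

/-- The sieve product over the primes of `P` below the real number `w`. -/
noncomputable def V (P : Finset ℕ) (g : ℕ → ℝ) (w : ℝ) : ℝ :=
  ∏ p ∈ P.filter (fun p : ℕ => (p : ℝ) < w), (1 - g p)

lemma V_zero (P : Finset ℕ) (g : ℕ → ℝ) : V P g 0 = 1 := by
  unfold V
  rw [filter_false_of_mem, prod_empty]
  intro p _
  have : (0 : ℝ) ≤ p := Nat.cast_nonneg p
  linarith

lemma V_nat (P : Finset ℕ) (g : ℕ → ℝ) (z : ℕ) :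
    V P g z = ∏ p ∈ P.filter (· < z), (1 - g p) := by
  unfold V
  congr 1
  ext p
  simp

lemma V_succ (P : Finset ℕ) (g : ℕ → ℝ) (z : ℕ) (hz : z ∈ P) :
    V P g ((z + 1 : ℕ) : ℝ) = (1 - g z) * V P g z := by
  rw [V_nat, V_nat, filter_lt_succ_of_mem P z hz, prod_insert (by simp)]

lemma V_succ_of_notMem (P : Finset ℕ) (g : ℕ → ℝ) (z : ℕ) (hz : z ∉ P) :
    V P g ((z + 1 : ℕ) : ℝ) = V P g z := by
  rw [V_nat, V_nat, filter_lt_succ_of_notMem P z hz]

lemma V_pos (P : Finset ℕ) (g : ℕ → ℝ) (hg : ∀ p ∈ P, g p < 1) (w : ℝ) : 0 < V P g w :=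
  prod_pos fun p hp => sub_pos.2 (hg p (mem_filter.1 hp).1)

/-- The excess of the upper bound sieve. -/
lemma M_true_eq (P : Finset ℕ) (g : ℕ → ℝ) (z : ℕ) (D : ℝ) :
    M P z true D (GG g) - V P g z = ∑ p ∈ P.filter (· < z), g p *
      (if (p : ℝ) ^ 3 < D then V P g p - M P p false (D / p) (GG g) else V P g p) := by
  induction z with
  | zero =>
    have hV : V P g ((0 : ℕ) : ℝ) = 1 := by rw [Nat.cast_zero]; exact V_zero P g
    rw [hV]
    simp [M, GG]
  | succ z ih =>
    by_cases hz : z ∈ P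
    · rw [filter_lt_succ_of_mem P z hz, sum_insert (by simp), ← ih, V_succ P g z hz]
      simp only [M]
      rw [GG_cons, M_smul]
      simp only [hz, true_and, forall_const, Bool.not_true]
      split_ifs <;> ring
    · rw [filter_lt_succ_of_notMem P z hz, ← ih, V_succ_of_notMem P g z hz]
      simp only [M]
      rw [if_neg (fun h => hz h.1)]
      ring

lemma M_false_eq (P : Finset ℕ) (g : ℕ → ℝ) (z : ℕ) (D : ℝ) :
    V P g z - M P z false D (GG g) = ∑ p ∈ P.filter (· < z), g p *
      (M P p true (D / p) (GG g) - V P g p) := by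
  induction z with
  | zero =>
    have hV : V P g ((0 : ℕ) : ℝ) = 1 := by rw [Nat.cast_zero]; exact V_zero P g
    rw [hV]
    simp [M, GG]
  | succ z ih =>
    by_cases hz : z ∈ P
    · rw [filter_lt_succ_of_mem P z hz, sum_insert (by simp), ← ih, V_succ P g z hz]
      simp only [M]
      rw [GG_cons, M_smul]
      simp only [hz, true_and, Bool.not_false]
      rw [if_pos (by simp)]
      ring
    · rw [filter_lt_succ_of_notMem P z hz, ← ih, V_succ_of_notMem P g z hz]
      simp only [M]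
      rw [if_neg (fun h => hz h.1)]
      ring

end Pool.Agent.LinearSieve
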