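import Pool.Agent.Work.LinearSieve.Induct

/-!
# The linear sieve: averaging operators
-/

set_option autoImplicit false

namespace Pool.Agent.LinearSieve

open MeasureTheory Set
open scoped Topology

/-- Continuous, antitone, nonnegative, bounded by `c hh`. -/
structure Good (c : ℝ) (e : ℝ → ℝ) : Prop where
  c0 : 0 ≤ c
  cont : Continuous e
  anti : Antitone e
  nonneg : ∀ s, 0 ≤ e s
  le : ∀ s, e s ≤ c * hh s

/-- `∫_s^∞ e(t - 1) dt`. -/
noncomputable def Jt (e : ℝ → ℝ) (s : ℝ) : ℝ := ∫ t in Ioi s, e (t - 1)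

lemma hh_cont : Continuous hh := by
  unfold hh
  fun_prop

lemma good_hh : Good 1 hh := ⟨zero_le_one, hh_cont, hh_anti, fun s => (hh_pos s).le, fun s => by simp⟩

lemma hh_le_exp (s : ℝ) : hh s ≤ Real.exp (-(6 / 5) * s) := by
  unfold hh
  apply Real.exp_le_exp.2
  have := le_max_left s 2
  linarith

section

variable {c : ℝ} {e : ℝ → ℝ}

lemma Good.le_exp (he : Good c e) (s : ℝ) : e s ≤ c * Real.exp (-(6 / 5) * s) :=
  le_trans (he.le s) (mul_le_mul_of_nonneg_left (hh_le_exp s) he.c0)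

lemma Good.int (he : Good c e) (a : ℝ) : IntegrableOn e (Ioi a) := by
  refine Integrable.mono' ((integrableOn_exp_mul_Ioi (a := -(6 / 5)) (by norm_num) a).const_mul c)
    he.cont.aestronglyMeasurable ?_
  refine Filter.Eventually.of_forall fun t => ?_
  rw [Real.norm_eq_abs, abs_of_nonneg (he.nonneg t)]
  exact he.le_exp t

lemma shift_exp (t : ℝ) : Real.exp (-(6 / 5) * (t - 1)) = Real.exp (6 / 5) * Real.exp (-(6 / 5) * t) := by
  rw [← Real.exp_add]
  congr 1
  ring

lemma Good.int_shift (he : Good c e) (a : ℝ) : IntegrableOn (fun t => e (t - 1)) (Ioi a) := by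
  refine Integrable.mono' ((integrableOn_exp_mul_Ioi (a := -(6 / 5)) (by norm_num) a).const_mul
    (c * Real.exp (6 / 5))) (he.cont.comp (by fun_prop)).aestronglyMeasurable ?_
  refine Filter.Eventually.of_forall fun t => ?_
  rw [Real.norm_eq_abs, abs_of_nonneg (he.nonneg _)]
  have := he.le_exp (t - 1)
  rw [shift_exp] at this
  linarith

lemma mul_exp_le (t : ℝ) : t * Real.exp (-(6 / 5) * t) ≤ 5 * Real.exp (-1 * t) := by
  have h1 : t / 5 ≤ Real.exp (t / 5) := by
    have := Real.add_one_le_exp (t / 5)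
    linarith
  have h2 : Real.exp (-1 * t) = Real.exp (t / 5) * Real.exp (-(6 / 5) * t) := by
    rw [← Real.exp_add]; congr 1; ring
  rw [h2]
  have := Real.exp_pos (-(6 / 5) * t)
  nlinarith

lemma Good.int_mul (he : Good c e) (a : ℝ) (ha : 0 ≤ a) : IntegrableOn (fun t => t * e t) (Ioi a) := by
  refine Integrable.mono' ((integrableOn_exp_mul_Ioi (a := -1) (by norm_num) a).const_mul
    (5 * c)) (continuous_id.mul he.cont).aestronglyMeasurable ?_
  refine (ae_restrict_iff' measurableSet_Ioi).2 (Filter.Eventually.of_forall fun t ht => ?_)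
  have ht0 : 0 ≤ t := le_trans ha (le_of_lt ht)
  rw [Real.norm_eq_abs, abs_of_nonneg (mul_nonneg ht0 (he.nonneg _))]
  have h1 := mul_le_mul_of_nonneg_left (he.le_exp t) ht0
  have h2 := mul_le_mul_of_nonneg_left (mul_exp_le t) he.c0
  linarith

lemma Jt_eq (e : ℝ → ℝ) (s : ℝ) : Jt e s = ∫ v in Ioi (s - 1), e v := by
  unfold Jt
  rw [← integral_indicator measurableSet_Ioi, ← integral_indicator measurableSet_Ioi,
    ← integral_sub_right_eq_self (fun x => (Ioi (s - 1)).indicator e x) 1]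
  congr 1
  funext t
  unfold indicator
  simp only [mem_Ioi, sub_lt_sub_iff_right]

lemma Good.Jt_nonneg (he : Good c e) (s : ℝ) : 0 ≤ Jt e s :=
  setIntegral_nonneg measurableSet_Ioi fun t _ => he.nonneg _

lemma Good.Jt_sub (he : Good c e) (a b : ℝ) : Jt e a - Jt e b = ∫ t in a..b, e (t - 1) :=
  intervalIntegral.integral_Ioi_sub_Ioi' (he.int_shift a) (he.int_shift b)

lemma Good.Jt_diff (he : Good c e) (t₁ t₂ : ℝ) (h : t₁ ≤ t₂) :
    (t₂ - t₁) * e (t₂ - 1) ≤ Jt e t₁ - Jt e t₂ := by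
  rw [he.Jt_sub]
  have h1 : ∫ _t in t₁..t₂, e (t₂ - 1) = (t₂ - t₁) * e (t₂ - 1) := by
    rw [intervalIntegral.integral_const, smul_eq_mul]
  rw [← h1]
  refine intervalIntegral.integral_mono_on h (by simp)
    ((he.cont.comp (by fun_prop)).intervalIntegrable _ _) fun t ht => ?_
  apply he.anti
  linarith [ht.2]

lemma Good.Jt_anti (he : Good c e) : Antitone (Jt e) := by
  intro a b hab
  have h1 := he.Jt_diff a b hab
  have h2 := he.nonneg (b - 1)
  nlinarith [mul_nonneg (sub_nonneg.2 hab) h2]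

lemma Good.Jt_deriv (he : Good c e) (s : ℝ) : HasDerivAt (Jt e) (-(e (s - 1))) s := by
  have h1 : Jt e = fun t => Jt e 0 - ∫ x in (0 : ℝ)..t, e (x - 1) := by
    funext t
    rw [← he.Jt_sub]; ring
  rw [h1]
  have hc : Continuous fun x : ℝ => e (x - 1) := he.cont.comp (by fun_prop)
  have h2 := (hc.integral_hasStrictDerivAt 0 s).hasDerivAt
  simpa using h2.const_sub (Jt e 0)

lemma Good.Jt_cont (he : Good c e) : Continuous (Jt e) :=
  continuous_iff_continuousAt.2 fun s => (he.Jt_deriv s).continuousAt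

lemma Good.Jt_le (he : Good c e) (s : ℝ) : Jt e s ≤ c * Jt hh s := by
  unfold Jt
  rw [← integral_const_mul]
  exact setIntegral_mono (he.int_shift s) ((good_hh.int_shift s).const_mul c) fun t => he.le _

/-- Explicit values for `hh`. -/
lemma JJ_large (s : ℝ) (hs : 3 ≤ s) : Jt hh s = 5 / 6 * (Real.exp (6 / 5) * Real.exp (-(6 / 5) * s)) := by
  unfold Jt
  have h1 : ∫ t in Ioi s, hh (t - 1) = ∫ t in Ioi s, Real.exp (6 / 5) * Real.exp (-(6 / 5) * t) := by
    refine setIntegral_congr_fun measurableSet_Ioi fun t ht => ?_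
    have ht' : s < t := ht
    show hh (t - 1) = _
    unfold hh
    rw [max_eq_left (by linarith), shift_exp]
  rw [h1, integral_const_mul, integral_exp_mul_Ioi (by norm_num)]
  ring

lemma JJ_le_exp (s : ℝ) : Jt hh s ≤ 5 / 6 * (Real.exp (6 / 5) * Real.exp (-(6 / 5) * s)) := by
  unfold Jt
  have h1 : ∫ t in Ioi s, hh (t - 1) ≤ ∫ t in Ioi s, Real.exp (6 / 5) * Real.exp (-(6 / 5) * t) := by
    refine setIntegral_mono (good_hh.int_shift s)
      ((integrableOn_exp_mul_Ioi (by norm_num) s).const_mul _) fun t => ?_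
    rw [← shift_exp]
    exact hh_le_exp _
  refine le_trans h1 (le_of_eq ?_)
  rw [integral_const_mul, integral_exp_mul_Ioi (by norm_num)]
  ring

lemma hh_eq_small (s : ℝ) (hs : s ≤ 2) : hh s = Real.exp (-(12 / 5)) := by
  unfold hh
  rw [max_eq_right hs]
  norm_num

lemma JJ_three_eq : Jt hh 3 = 5 / 6 * Real.exp (-(12 / 5)) := by
  rw [JJ_large 3 le_rfl, ← Real.exp_add]
  norm_num

lemma JJ_small (s : ℝ) (hs : s ≤ 3) : Jt hh s = (3 - s + 5 / 6) * Real.exp (-(12 / 5)) := by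
  have h1 := good_hh.Jt_sub s 3
  have h2 : ∫ t in s..3, hh (t - 1) = ∫ _t in s..3, Real.exp (-(12 / 5)) := by
    refine intervalIntegral.integral_congr fun t ht => ?_
    rw [uIcc_of_le hs] at ht
    exact hh_eq_small _ (by linarith [ht.2])
  rw [h2, intervalIntegral.integral_const, smul_eq_mul, JJ_three_eq] at h1
  linarith

/-- The real inequality. -/
lemma key_ineq (u : ℝ) (h0 : 0 ≤ u) (h1 : u ≤ 1) :
    (11 / 6 - u) * Real.exp (6 / 5 * u) ≤ 99 / 100 * (2 + u) := by
  have e1 : Real.exp (6 / 5 * u) = Real.exp (3 / 5 * u) ^ 2 := by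
    rw [← Real.exp_nat_mul]; congr 1; push_cast; ring
  have e2 : Real.exp (3 / 5 * u) ≤ 1 + (3 / 5 * u) + (3 / 5 * u) ^ 2 / 2 + (3 / 5 * u) ^ 3 / 6
      + (3 / 5 * u) ^ 4 * (5 / 96) := by
    have h5 := Real.exp_bound' (x := 3 / 5 * u) (by linarith) (by linarith) (n := 4) (by norm_num)
    refine le_trans h5 (le_of_eq ?_)
    simp only [Finset.sum_range_succ, Finset.range_zero, Finset.sum_empty, Nat.factorial]
    push_cast
    ring
  have e3 : 0 < Real.exp (3 / 5 * u) := Real.exp_pos _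
  set w := 1 + (3 / 5 * u) + (3 / 5 * u) ^ 2 / 2 + (3 / 5 * u) ^ 3 / 6
      + (3 / 5 * u) ^ 4 * (5 / 96) with hw
  have e4 : Real.exp (3 / 5 * u) ^ 2 ≤ w ^ 2 := pow_le_pow_left₀ e3.le e2 2
  rw [e1]
  refine le_trans (mul_le_mul_of_nonneg_left e4 (by linarith)) ?_
  rw [hw]
  have q4 : 0 ≤ 11 / 75 - 21 / 100 * u - 3 / 25 * u ^ 2 + 24 / 125 * u ^ 3 + 12 / 100 * u ^ 4 := by
    nlinarith [mul_nonneg h0 (sq_nonneg (u - 3 / 5)), sq_nonneg (u - 3 / 5), sq_nonneg (u ^ 2 - 9 / 25)]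
  have p4 := pow_nonneg h0 4
  have p5 := pow_nonneg h0 5
  have p6 := pow_nonneg h0 6
  have p7 := pow_nonneg h0 7
  have p8 := pow_nonneg h0 8
  have p9 := pow_nonneg h0 9
  nlinarith

end

end Pool.Agent.LinearSieve
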