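import Pool.Agent.Work.LinearSieve.Abel

/-!
# The linear sieve: the main terms
-/

set_option autoImplicit false

namespace Pool.Agent.LinearSieve

open Finset
open scoped Classical

/-- The comparison function. -/
noncomputable def hh (s : ℝ) : ℝ := Real.exp (-(6 / 5) * max s 2)

/-- The functions of the linear sieve: `fp = F - 1`, `fm = 1 - f`, `Jp s = ∫_s^∞ fp (t - 1) dt`,
`Jm s = ∫_s^∞ fm (t - 1) dt`. -/
structure Fns where
  fp : ℝ → ℝ
  fm : ℝ → ℝ
  Jp : ℝ → ℝ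
  Jm : ℝ → ℝ
  JJ : ℝ → ℝ
  A : ℝ
  C : ℝ
  C_nonneg : 0 ≤ C
  fp_anti : Antitone fp
  fm_anti : Antitone fm
  fp_nonneg : ∀ s, 0 ≤ fp s
  fm_nonneg : ∀ s, 0 ≤ fm s
  Jp_nonneg : ∀ s, 0 ≤ Jp s
  Jm_nonneg : ∀ s, 0 ≤ Jm s
  JJ_nonneg : ∀ s, 0 ≤ JJ s
  Jp_diff : ∀ t₁ t₂, t₁ ≤ t₂ → (t₂ - t₁) * fp (t₂ - 1) ≤ Jp t₁ - Jp t₂
  Jm_diff : ∀ t₁ t₂, t₁ ≤ t₂ → (t₂ - t₁) * fm (t₂ - 1) ≤ Jm t₁ - Jm t₂
  JJ_diff : ∀ t₁ t₂, t₁ ≤ t₂ → (t₂ - t₁) * hh (t₂ - 1) ≤ JJ t₁ - JJ t₂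
  fp_le : ∀ s, fp s ≤ C * hh s
  fm_le : ∀ s, fm s ≤ C * hh s
  fm_eq : ∀ s, 2 ≤ s → Jp s / s = fm s
  fp_eq : ∀ s, 3 ≤ s → Jm s / s = fp s
  A_eq : A = 3 + Jm 3
  fp_small : ∀ s, 1 ≤ s → s ≤ 3 → fp s = A / s - 1
  fm_small : ∀ s, 2 ≤ s → s ≤ 4 → 1 - fm s = A * Real.log (s - 1) / s
  JJ_le : ∀ s, 2 ≤ s → JJ s / s ≤ 99 / 100 * hh s
  JJ_three : ∀ s, 1 ≤ s → s ≤ 3 → JJ 3 / s ≤ 99 / 100 * hh s

lemma hh_pos (s : ℝ) : 0 < hh s := Real.exp_pos _

lemma hh_anti : Antitone hh := by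
  intro a b hab
  unfold hh
  apply Real.exp_le_exp.2
  have := max_le_max_right 2 hab
  linarith

lemma hh_shift (s : ℝ) : hh (s - 1) ≤ 4 * hh s := by
  unfold hh
  have h1 : -(6 / 5) * max (s - 1) 2 ≤ 6 / 5 + -(6 / 5) * max s 2 := by
    have : max s 2 ≤ max (s - 1) 2 + 1 := by
      apply max_le
      · have := le_max_left (s - 1) 2; linarith
      · have := le_max_right (s - 1) 2; linarith
    linarith
  have h2 : Real.exp (6 / 5) ≤ 4 := by
    have h3 : Real.exp (6 / 5) = Real.exp (3 / 5) ^ 2 := by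
      rw [← Real.exp_nat_mul]; norm_num
    have h4 : Real.exp (3 / 5) ≤ 2 := by
      have h5 := Real.exp_bound' (x := 3 / 5) (by norm_num) (by norm_num) (n := 3) (by norm_num)
      refine le_trans h5 ?_
      simp only [sum_range_succ, range_zero, sum_empty, Nat.factorial]
      norm_num
    rw [h3]
    nlinarith [Real.exp_pos (3 / 5)]
  calc Real.exp (-(6 / 5) * max (s - 1) 2) ≤ Real.exp (6 / 5 + -(6 / 5) * max s 2) :=
        Real.exp_le_exp.2 h1
    _ = Real.exp (6 / 5) * Real.exp (-(6 / 5) * max s 2) := Real.exp_add _ _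
    _ ≤ _ := mul_le_mul_of_nonneg_right h2 (Real.exp_pos _).le

/-- The claim for the upper bound sieve. -/
def ClaimP (P : Finset ℕ) (g : ℕ → ℝ) (F : Fns) (κ : ℝ) (z : ℝ) : Prop := ∀ D : ℝ, z ≤ D →
  M P ⌈z⌉₊ true D (GG g) - V P g z
    ≤ V P g z * (F.fp (Real.log D / Real.log z) + κ * hh (Real.log D / Real.log z))

/-- The claim for the lower bound sieve. -/
def ClaimM (P : Finset ℕ) (g : ℕ → ℝ) (F : Fns) (κ : ℝ) (z : ℝ) : Prop := ∀ D : ℝ, z ^ 2 ≤ D →
  V P g z - M P ⌈z⌉₊ false D (GG g)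
    ≤ V P g z * (F.fm (Real.log D / Real.log z) + κ * hh (Real.log D / Real.log z))

/-- Abstract form of partial summation for `e + κ hh`. -/
lemma abel_comb (P : Finset ℕ) (g : ℕ → ℝ) (F : Fns) (D z δ κ : ℝ) (e J : ℝ → ℝ)
    (hP : ∀ p ∈ P, 2 ≤ p)
    (hg1 : ∀ p ∈ P, g p < 1) (hz : 1 < z) (hD : 1 < D) (hδ : 0 ≤ δ) (hκ : 0 ≤ κ)
    (he : Antitone e) (he0 : ∀ t, 0 ≤ e t) (hJ0 : ∀ t, 0 ≤ J t)
    (hJ : ∀ t₁ t₂, t₁ ≤ t₂ → (t₂ - t₁) * e (t₂ - 1) ≤ J t₁ - J t₂)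
    (hreg : ∀ u v, 1 < u → u ≤ v → V P g u ≤ V P g v * ((1 + δ) * (Real.log v / Real.log u))) :
    ∑ p ∈ P.filter (fun p : ℕ => (p : ℝ) < z),
        g p * (V P g p * (e (Real.log D / Real.log p - 1) + κ * hh (Real.log D / Real.log p - 1)))
      ≤ V P g z * (δ * (e (Real.log D / Real.log z - 1) + κ * hh (Real.log D / Real.log z - 1))
        + (1 + δ) / (Real.log D / Real.log z)
        * (J (Real.log D / Real.log z) + κ * F.JJ (Real.log D / Real.log z))) := by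
  refine abel P g D z δ (fun t => e t + κ * hh t) (fun t => J t + κ * F.JJ t) hP hg1 hz hD hδ
    ?_ ?_ ?_ ?_ ?_
  · intro a b hab
    have h1 := he hab
    have h2 := mul_le_mul_of_nonneg_left (hh_anti hab) hκ
    simp only
    linarith
  · intro t
    have h1 := he0 t
    have h2 := hh_pos t
    positivity
  · intro t
    have h1 := hJ0 t
    have h2 := F.JJ_nonneg t
    positivity
  · intro t₁ t₂ h
    have h1 := hJ t₁ t₂ h
    have h2 := mul_le_mul_of_nonneg_left (F.JJ_diff t₁ t₂ h) hκ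
    linarith
  · intro w hw hwz
    exact hreg w z (by linarith) hwz

lemma log_div_log (D : ℝ) (p : ℕ) (hp : 2 ≤ p) (hD : 0 < D) :
    Real.log (D / p) / Real.log p = Real.log D / Real.log p - 1 := by
  have hp2 : (2 : ℝ) ≤ p := by exact_mod_cast hp
  have hlp : Real.log p ≠ 0 := (Real.log_pos (by linarith)).ne'
  rw [Real.log_div hD.ne' (by linarith : (p : ℝ) ≠ 0), sub_div, div_self hlp]

section steps

variable (P : Finset ℕ) (g : ℕ → ℝ) (F : Fns) (δ K : ℝ)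

lemma stepM (hP : ∀ p ∈ P, 2 ≤ p) (hg0 : ∀ p ∈ P, 0 ≤ g p)
    (hg1 : ∀ p ∈ P, g p < 1) (hδ : 0 ≤ δ) (hδ' : δ ≤ 1 / 2000) (hK : 0 ≤ K)
    (hKC : 2500 * F.C ≤ K)
    (hreg : ∀ u v, 1 < u → u ≤ v → V P g u ≤ V P g v * ((1 + δ) * (Real.log v / Real.log u)))
    (z : ℝ) (hz : 1 < z) (hind : ∀ p ∈ P, (p : ℝ) < z → ClaimP P g F (K * δ) p) :
    ClaimM P g F (K * δ) z := by
  intro D hD
  have hD1 : 1 < D := by nlinarith
  have hlz : 0 < Real.log z := Real.log_pos hz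
  have hlD : 0 < Real.log D := Real.log_pos hD1
  have hVz : 0 < V P g z := V_pos P g hg1 z
  set s := Real.log D / Real.log z with hs
  have hs2 : 2 ≤ s := by
    rw [hs, le_div_iff₀ hlz]
    have := Real.log_le_log (by positivity) hD
    rw [Real.log_pow] at this
    push_cast at this
    linarith
  rw [V_ceil, M_false_eq, filter_ceil, ← V_ceil]
  have h1 : ∑ p ∈ P.filter (fun p : ℕ => (p : ℝ) < z), g p * (M P p true (D / p) (GG g) - V P g p)
      ≤ ∑ p ∈ P.filter (fun p : ℕ => (p : ℝ) < z),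
        g p * (V P g p * (F.fp (Real.log D / Real.log p - 1)
          + (K * δ) * hh (Real.log D / Real.log p - 1))) := by
    refine sum_le_sum fun p hp => ?_
    rw [mem_filter] at hp
    have hp2 : (2 : ℝ) ≤ p := by exact_mod_cast hP p hp.1
    have h2 := hind p hp.1 hp.2 (D / p) (by
      rw [le_div_iff₀ (by linarith)]
      nlinarith [hp.2])
    rw [Nat.ceil_natCast, log_div_log D p (hP p hp.1) (by linarith)] at h2
    exact mul_le_mul_of_nonneg_left h2 (hg0 p hp.1)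
  refine le_trans h1 (le_trans (abel_comb P g F D z δ (K * δ) F.fp F.Jp hP hg1 hz hD1 hδ
    (by positivity) F.fp_anti F.fp_nonneg F.Jp_nonneg F.Jp_diff hreg) ?_)
  apply mul_le_mul_of_nonneg_left _ hVz.le
  rw [← hs]
  have hs0 : 0 < s := by linarith
  have e1 := F.fp_le (s - 1)
  have e2 := hh_shift s
  have e3 := F.fm_eq s hs2
  have e4 := F.fm_le s
  have e5 := F.JJ_le s hs2
  have e6 := hh_pos s
  have e7 : (1 + δ) / s * (F.Jp s + K * δ * F.JJ s)
      = (1 + δ) * F.fm s + (1 + δ) * (K * δ) * (F.JJ s / s) := by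
    rw [← e3]; ring
  rw [e7]
  have e8 : F.fp (s - 1) ≤ 4 * F.C * hh s := by
    refine le_trans e1 ?_
    have := mul_le_mul_of_nonneg_left e2 F.C_nonneg
    linarith
  have e9 : δ * (F.fp (s - 1) + K * δ * hh (s - 1)) ≤ δ * (4 * F.C * hh s + K * δ * (4 * hh s)) := by
    apply mul_le_mul_of_nonneg_left _ hδ
    have := mul_le_mul_of_nonneg_left e2 (by positivity : 0 ≤ K * δ)
    linarith
  have e10 : (1 + δ) * (K * δ) * (F.JJ s / s) ≤ (1 + δ) * (K * δ) * (99 / 100 * hh s) :=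
    mul_le_mul_of_nonneg_left e5 (by positivity)
  have e11 : δ * F.fm s ≤ δ * (F.C * hh s) := mul_le_mul_of_nonneg_left e4 hδ
  have e12 : 5 * F.C + K * (4 * δ + (1 + δ) * (99 / 100)) ≤ K := by
    nlinarith
  have e13 : δ * hh s * (5 * F.C + K * (4 * δ + (1 + δ) * (99 / 100))) ≤ δ * hh s * K :=
    mul_le_mul_of_nonneg_left e12 (by positivity)
  nlinarith

lemma stepP_large (hP : ∀ p ∈ P, 2 ≤ p) (hg0 : ∀ p ∈ P, 0 ≤ g p)
    (hg1 : ∀ p ∈ P, g p < 1) (hδ : 0 ≤ δ) (hδ' : δ ≤ 1 / 2000) (hK : 0 ≤ K)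
    (hKC : 2500 * F.C ≤ K)
    (hreg : ∀ u v, 1 < u → u ≤ v → V P g u ≤ V P g v * ((1 + δ) * (Real.log v / Real.log u)))
    (z : ℝ) (hz : 1 < z) (hind : ∀ p ∈ P, (p : ℝ) < z → ClaimM P g F (K * δ) p)
    (D : ℝ) (hD : z ^ 3 ≤ D) :
    M P ⌈z⌉₊ true D (GG g) - V P g z
      ≤ V P g z * (F.fp (Real.log D / Real.log z) + K * δ * hh (Real.log D / Real.log z)) := by
  have hz3 : 1 < z ^ 3 := by nlinarith [sq_nonneg (z - 1)]
  have hD1 : 1 < D := by linarith
  have hlz : 0 < Real.log z := Real.log_pos hz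
  have hlD : 0 < Real.log D := Real.log_pos hD1
  have hVz : 0 < V P g z := V_pos P g hg1 z
  set s := Real.log D / Real.log z with hs
  have hs3 : 3 ≤ s := by
    rw [hs, le_div_iff₀ hlz]
    have := Real.log_le_log (by positivity) hD
    rw [Real.log_pow] at this
    push_cast at this
    linarith
  rw [V_ceil P g z, M_true_eq, filter_ceil, ← V_ceil]
  have h1 : ∑ p ∈ P.filter (fun p : ℕ => (p : ℝ) < z), g p *
        (if (p : ℝ) ^ 3 < D then V P g p - M P p false (D / p) (GG g) else V P g p)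
      ≤ ∑ p ∈ P.filter (fun p : ℕ => (p : ℝ) < z),
        g p * (V P g p * (F.fm (Real.log D / Real.log p - 1)
          + (K * δ) * hh (Real.log D / Real.log p - 1))) := by
    refine sum_le_sum fun p hp => ?_
    rw [mem_filter] at hp
    have hp2 : (2 : ℝ) ≤ p := by exact_mod_cast hP p hp.1
    have hp3 : (p : ℝ) ^ 3 < D := by
      have : (p : ℝ) ^ 3 < z ^ 3 := pow_lt_pow_left₀ hp.2 (by linarith) (by norm_num)
      linarith
    rw [if_pos hp3]
    have h2 := hind p hp.1 hp.2 (D / p) (by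
      rw [le_div_iff₀ (by linarith)]
      nlinarith [hp3])
    rw [Nat.ceil_natCast, log_div_log D p (hP p hp.1) (by linarith)] at h2
    exact mul_le_mul_of_nonneg_left h2 (hg0 p hp.1)
  refine le_trans h1 (le_trans (abel_comb P g F D z δ (K * δ) F.fm F.Jm hP hg1 hz hD1 hδ
    (by positivity) F.fm_anti F.fm_nonneg F.Jm_nonneg F.Jm_diff hreg) ?_)
  apply mul_le_mul_of_nonneg_left _ hVz.le
  rw [← hs]
  have hs0 : 0 < s := by linarith
  have e1 := F.fm_le (s - 1)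
  have e2 := hh_shift s
  have e3 := F.fp_eq s hs3
  have e4 := F.fp_le s
  have e5 := F.JJ_le s (by linarith)
  have e6 := hh_pos s
  have e7 : (1 + δ) / s * (F.Jm s + K * δ * F.JJ s)
      = (1 + δ) * F.fp s + (1 + δ) * (K * δ) * (F.JJ s / s) := by
    rw [← e3]; ring
  rw [e7]
  have e8 : F.fm (s - 1) ≤ 4 * F.C * hh s := by
    refine le_trans e1 ?_
    have := mul_le_mul_of_nonneg_left e2 F.C_nonneg
    linarith
  have e9 : δ * (F.fm (s - 1) + K * δ * hh (s - 1)) ≤ δ * (4 * F.C * hh s + K * δ * (4 * hh s)) := by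
    apply mul_le_mul_of_nonneg_left _ hδ
    have := mul_le_mul_of_nonneg_left e2 (by positivity : 0 ≤ K * δ)
    linarith
  have e10 : (1 + δ) * (K * δ) * (F.JJ s / s) ≤ (1 + δ) * (K * δ) * (99 / 100 * hh s) :=
    mul_le_mul_of_nonneg_left e5 (by positivity)
  have e11 : δ * F.fp s ≤ δ * (F.C * hh s) := mul_le_mul_of_nonneg_left e4 hδ
  have e12 : 5 * F.C + K * (4 * δ + (1 + δ) * (99 / 100)) ≤ K := by
    nlinarith
  have e13 : δ * hh s * (5 * F.C + K * (4 * δ + (1 + δ) * (99 / 100))) ≤ δ * hh s * K :=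
    mul_le_mul_of_nonneg_left e12 (by positivity)
  nlinarith

lemma stepP_small (hP : ∀ p ∈ P, 2 ≤ p) (hg0 : ∀ p ∈ P, 0 ≤ g p)
    (hg1 : ∀ p ∈ P, g p < 1) (hδ : 0 ≤ δ) (hδ' : δ ≤ 1 / 2000) (hK : 0 ≤ K)
    (hKC : 500 * (F.A + 6 * F.fm 2 + 2 * F.Jm 3) ≤ K * hh 3)
    (hreg : ∀ u v, 1 < u → u ≤ v → V P g u ≤ V P g v * ((1 + δ) * (Real.log v / Real.log u)))
    (z : ℝ) (hz : 1 < z) (hind : ∀ p ∈ P, (p : ℝ) < z → ClaimM P g F (K * δ) p)
    (D : ℝ) (hzD : z ≤ D) (hD : D ≤ z ^ 3) :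
    M P ⌈z⌉₊ true D (GG g) - V P g z
      ≤ V P g z * (F.fp (Real.log D / Real.log z) + K * δ * hh (Real.log D / Real.log z)) := by
  have hD1 : 1 < D := by linarith
  have hD0 : 0 < D := by linarith
  have hlz : 0 < Real.log z := Real.log_pos hz
  have hlD : 0 < Real.log D := Real.log_pos hD1
  have hVz : 0 < V P g z := V_pos P g hg1 z
  set s := Real.log D / Real.log z with hs
  have hs3 : s ≤ 3 := by
    rw [hs, div_le_iff₀ hlz]
    have := Real.log_le_log hD0 hD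
    rw [Real.log_pow] at this
    push_cast at this
    linarith
  have hs1 : 1 ≤ s := by
    rw [hs, le_div_iff₀ hlz]
    have := Real.log_le_log (by linarith) hzD
    linarith
  -- the cube root of `D`
  set ζ := D ^ (1 / 3 : ℝ) with hζ
  have hζ3 : ζ ^ 3 = D := by
    rw [hζ, ← Real.rpow_natCast, ← Real.rpow_mul hD0.le]
    norm_num
  have hζ0 : 0 < ζ := Real.rpow_pos_of_pos hD0 _
  have hζ1 : 1 < ζ := Real.one_lt_rpow hD1 (by norm_num)
  have hζz : ζ ≤ z := by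
    by_contra h
    push Not at h
    have : z ^ 3 < ζ ^ 3 := pow_lt_pow_left₀ h (by linarith) (by norm_num)
    rw [hζ3] at this
    linarith
  have hlζ : Real.log D = 3 * Real.log ζ := by
    rw [← hζ3, Real.log_pow]; norm_num
  have hlζ0 : 0 < Real.log ζ := Real.log_pos hζ1
  have hDζ : Real.log D / Real.log ζ = 3 := by
    rw [hlζ]; field_simp
  have hcub : ∀ p : ℕ, (p : ℝ) ^ 3 < D ↔ (p : ℝ) < ζ := by
    intro p
    rw [← hζ3]
    constructor
    · intro h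
      exact lt_of_pow_lt_pow_left₀ 3 hζ0.le h
    · intro h
      exact pow_lt_pow_left₀ h (Nat.cast_nonneg p) (by norm_num)
  rw [V_ceil P g z, M_true_eq, filter_ceil, ← V_ceil]
  have hsplit : ∑ p ∈ P.filter (fun p : ℕ => (p : ℝ) < z), g p *
        (if (p : ℝ) ^ 3 < D then V P g p - M P p false (D / p) (GG g) else V P g p)
      = ∑ p ∈ P.filter (fun p : ℕ => (p : ℝ) < ζ), g p * (V P g p - M P p false (D / p) (GG g))
        + (V P g ζ - V P g z) := by
    have h1 : V P g ζ - V P g z = ∑ p ∈ P.filter (fun p : ℕ => (p : ℝ) < z), g p * V P g p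
        - ∑ p ∈ P.filter (fun p : ℕ => (p : ℝ) < ζ), g p * V P g p := by
      rw [sum_gV_real, sum_gV_real]; ring
    have h2 : P.filter (fun p : ℕ => (p : ℝ) < ζ)
        = (P.filter (fun p : ℕ => (p : ℝ) < z)).filter (fun p : ℕ => (p : ℝ) < ζ) := by
      ext p
      simp only [mem_filter]
      constructor
      · rintro ⟨h3, h4⟩; exact ⟨⟨h3, by linarith⟩, h4⟩
      · rintro ⟨⟨h3, _⟩, h4⟩; exact ⟨h3, h4⟩
    rw [h1, h2, sum_filter (fun p : ℕ => (p : ℝ) < ζ), sum_filter (fun p : ℕ => (p : ℝ) < ζ),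
      ← sum_sub_distrib, ← sum_add_distrib]
    refine sum_congr rfl fun p _ => ?_
    by_cases h3 : (p : ℝ) < ζ
    · rw [if_pos ((hcub p).2 h3), if_pos h3, if_pos h3]; ring
    · rw [if_neg (fun h => h3 ((hcub p).1 h)), if_neg h3, if_neg h3]; ring
  rw [hsplit]
  have h1 : ∑ p ∈ P.filter (fun p : ℕ => (p : ℝ) < ζ), g p * (V P g p - M P p false (D / p) (GG g))
      ≤ ∑ p ∈ P.filter (fun p : ℕ => (p : ℝ) < ζ),
        g p * (V P g p * (F.fm (Real.log D / Real.log p - 1)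
          + (K * δ) * hh (Real.log D / Real.log p - 1))) := by
    refine sum_le_sum fun p hp => ?_
    rw [mem_filter] at hp
    have hp2 : (2 : ℝ) ≤ p := by exact_mod_cast hP p hp.1
    have hp3 : (p : ℝ) ^ 3 < D := (hcub p).2 hp.2
    have h2 := hind p hp.1 (by linarith [hp.2]) (D / p) (by
      rw [le_div_iff₀ (by linarith)]
      nlinarith [hp3])
    rw [Nat.ceil_natCast, log_div_log D p (hP p hp.1) hD0] at h2
    exact mul_le_mul_of_nonneg_left h2 (hg0 p hp.1)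
  have h2 := abel_comb P g F D ζ δ (K * δ) F.fm F.Jm hP hg1 hζ1 hD1 hδ
    (by positivity) F.fm_anti F.fm_nonneg F.Jm_nonneg F.Jm_diff hreg
  rw [hDζ] at h2
  have h3 := hreg ζ z hζ1 hζz
  have h4 : Real.log z / Real.log ζ = 3 / s := by
    rw [hs, hlζ]; field_simp
  rw [h4] at h3
  have hs0 : 0 < s := by linarith
  have e1 := F.fp_small s hs1 hs3
  have e2 := F.JJ_three s hs1 hs3
  have e3 := F.A_eq
  have e4 := hh_pos s
  have e5 : hh 2 ≤ 4 * hh s := by
    have h5 := hh_shift 3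
    have h6 := hh_anti hs3
    norm_num at h5
    linarith
  have e6 : hh 3 ≤ hh s := hh_anti hs3
  have hfm2 := F.fm_nonneg 2
  have hJm3 := F.Jm_nonneg 3
  have hJJ3 := F.JJ_nonneg 3
  have hh2 := hh_pos 2
  norm_num at h2
  -- total
  set W := 1 + (δ * (F.fm 2 + K * δ * hh 2) + (1 + δ) / 3 * (F.Jm 3 + K * δ * F.JJ 3)) with hW
  have hW0 : 0 ≤ W := by positivity
  have e7 : V P g ζ * W ≤ V P g z * ((1 + δ) * (3 / s)) * W := mul_le_mul_of_nonneg_right h3 hW0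
  have e8 : (1 + δ) * (3 / s) * W ≤ 1 + F.fp s + K * δ * hh s := by
    have hA : F.Jm 3 = F.A - 3 := by linarith
    have f1 : (1 + δ) * (3 / s) * W = F.A / s + δ * (F.A / s)
        + δ * ((1 + δ) * (3 * F.fm 2 + F.Jm 3) / s)
        + K * δ * ((1 + δ) * (3 * δ * hh 2 / s + (1 + δ) * (F.JJ 3 / s))) := by
      rw [hW, hA]
      field_simp
      ring
    rw [f1, e1]
    have hA0 : 0 ≤ F.A := by linarith
    have f2 : F.A / s ≤ F.A := div_le_self hA0 hs1
    have f3 : (1 + δ) * (3 * F.fm 2 + F.Jm 3) / s ≤ 2 * (3 * F.fm 2 + F.Jm 3) := by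
      refine le_trans (div_le_self (by positivity) hs1) ?_
      apply mul_le_mul_of_nonneg_right (by linarith) (by positivity)
    have f4 : 3 * δ * hh 2 / s ≤ 12 * δ * hh s := by
      refine le_trans (div_le_self (by positivity) hs1) ?_
      have := mul_le_mul_of_nonneg_left e5 hδ
      linarith
    have f5 : (1 + δ) * (F.JJ 3 / s) ≤ (1 + δ) * (99 / 100 * hh s) :=
      mul_le_mul_of_nonneg_left e2 (by linarith)
    have f6 : (1 + δ) * (3 * δ * hh 2 / s + (1 + δ) * (F.JJ 3 / s)) ≤ (499 / 500) * hh s := by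
      calc (1 + δ) * (3 * δ * hh 2 / s + (1 + δ) * (F.JJ 3 / s))
          ≤ (1 + δ) * (12 * δ * hh s + (1 + δ) * (99 / 100 * hh s)) := by
            apply mul_le_mul_of_nonneg_left (by linarith) (by linarith)
        _ = ((1 + δ) * (12 * δ + (1 + δ) * (99 / 100))) * hh s := by ring
        _ ≤ _ := by
            apply mul_le_mul_of_nonneg_right _ e4.le
            nlinarith
    have f7 := mul_le_mul_of_nonneg_left f6 (by positivity : 0 ≤ K * δ)
    have f8 : F.A + 2 * (3 * F.fm 2 + F.Jm 3) ≤ K * (1 / 500) * hh s := by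
      have : K * hh 3 ≤ K * hh s := mul_le_mul_of_nonneg_left e6 hK
      linarith
    have f9 := mul_le_mul_of_nonneg_left f8 hδ
    have f10 := mul_le_mul_of_nonneg_left (add_le_add f2 f3) hδ
    linarith
  have e9 := mul_le_mul_of_nonneg_left e8 hVz.le
  have e10 : V P g ζ * W = V P g ζ + V P g ζ * (δ * (F.fm 2 + K * δ * hh 2)
      + (1 + δ) / 3 * (F.Jm 3 + K * δ * F.JJ 3)) := by
    rw [hW]; ring
  linarith

/-- The main terms of the linear sieve. -/
theorem claims (hP : ∀ p ∈ P, 2 ≤ p) (hg0 : ∀ p ∈ P, 0 ≤ g p)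
    (hg1 : ∀ p ∈ P, g p < 1) (hδ : 0 ≤ δ) (hδ' : δ ≤ 1 / 2000) (hK : 0 ≤ K)
    (hKC : 2500 * F.C ≤ K) (hKC' : 500 * (F.A + 6 * F.fm 2 + 2 * F.Jm 3) ≤ K * hh 3)
    (hreg : ∀ u v, 1 < u → u ≤ v → V P g u ≤ V P g v * ((1 + δ) * (Real.log v / Real.log u)))
    (z : ℝ) (hz : 1 < z) : ClaimP P g F (K * δ) z ∧ ClaimM P g F (K * δ) z := by
  have hstepP : ∀ z : ℝ, 1 < z → (∀ p ∈ P, (p : ℝ) < z → ClaimM P g F (K * δ) p) →
      ClaimP P g F (K * δ) z := by
    intro z hz hind D hzD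
    rcases le_total (z ^ 3) D with h | h
    · exact stepP_large P g F δ K hP hg0 hg1 hδ hδ' hK hKC hreg z hz hind D h
    · exact stepP_small P g F δ K hP hg0 hg1 hδ hδ' hK hKC' hreg z hz hind D hzD h
  have hnat : ∀ n : ℕ, 2 ≤ n → ClaimP P g F (K * δ) n ∧ ClaimM P g F (K * δ) n := by
    intro n
    induction n using Nat.strong_induction_on with
    | _ n ih =>
      intro hn
      have hn1 : (1 : ℝ) < n := by
        have : (2 : ℝ) ≤ n := by exact_mod_cast hn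
        linarith
      constructor
      · exact hstepP n hn1 fun p hp hpn => (ih p (by exact_mod_cast hpn) (hP p hp)).2
      · exact stepM P g F δ K hP hg0 hg1 hδ hδ' hK hKC hreg n hn1
          fun p hp hpn => (ih p (by exact_mod_cast hpn) (hP p hp)).1
  constructor
  · exact hstepP z hz fun p hp _ => (hnat p (hP p hp)).2
  · exact stepM P g F δ K hP hg0 hg1 hδ hδ' hK hKC hreg z hz fun p hp _ => (hnat p (hP p hp)).1

end steps

end Pool.Agent.LinearSieve
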