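import Mathlib

/-!
# The linear sieve (Jurkat–Richert theorem, Rosser–Iwaniec weights): definitions and blocks

* `V g z`         : `∏_{p < z} (1 - g p)`.
* `G g z b D`     : the main sums `G^±(D, z)` (`b = true`: upper bound sieve, `b = false`: lower
                    bound sieve), by recursion on `z`.
* `lam P z b D d` : the Rosser weights, by the same recursion.
* `IsFf A F f`    : `(F, f)` is the pair of functions of the linear sieve, `s F(s) = A` on `[1, 3]`.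
* `IsKer α hp hm` : the pair of comparison functions for the error terms.
-/

set_option autoImplicit false

namespace Pool.Agent.LinSieve

open Finset MeasureTheory

/-- `V g z = ∏_{p < z} (1 - g p)`. -/
noncomputable def V (g : ℕ → ℝ) (z : ℕ) : ℝ := ∏ p ∈ range z, (1 - g p)

/-- The main sums of the Rosser–Iwaniec weights: `G g z true D` is the upper bound sieve,
`G g z false D` the lower bound sieve, of level `D`, for the primes `p < z` with density `g p`. -/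
noncomputable def G (g : ℕ → ℝ) : ℕ → Bool → ℝ → ℝ
  | 0, _, _ => 1
  | z + 1, true, D =>
      G g z true D - (if (z : ℝ) ^ 3 < D then g z * G g z false (D / z) else 0)
  | z + 1, false, D => G g z false D - g z * G g z true (D / z)

/-- The Rosser weights for the sieving primes `p ∈ P`, `p < z`. -/
noncomputable def lam (P : Finset ℕ) : ℕ → Bool → ℝ → ℕ → ℝ
  | 0, _, _, d => if d = 1 then 1 else 0
  | z + 1, true, D, d => lam P z true D d -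
      (if z ∈ P ∧ (z : ℝ) ^ 3 < D ∧ z ∣ d then lam P z false (D / z) (d / z) else 0)
  | z + 1, false, D, d => lam P z false D d -
      (if z ∈ P ∧ z ∣ d then lam P z true (D / z) (d / z) else 0)

/-- The product of the primes of `P` below `z`. -/
def Pz (P : Finset ℕ) (z : ℕ) : ℕ := ∏ p ∈ P.filter (· < z), p

/-- The pair of functions of the linear sieve. -/
structure IsFf (A : ℝ) (F f : ℝ → ℝ) : Prop where
  A_pos : 0 < A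
  F_init : ∀ s, 1 ≤ s → s ≤ 3 → s * F s = A
  f_init : ∀ s, 2 ≤ s → s ≤ 4 → s * f s = A * Real.log (s - 1)
  F_anti : AntitoneOn F (Set.Ici 1)
  f_mono : MonotoneOn f (Set.Ici 2)
  F_ge : ∀ s, 1 ≤ s → 1 ≤ F s
  f_le : ∀ s, 2 ≤ s → f s ≤ 1
  F_eq : ∀ s, 3 ≤ s → s * (F s - 1) = ∫ t in Set.Ioi (s - 1), (1 - f t)
  f_eq : ∀ s, 2 ≤ s → s * (1 - f s) = ∫ t in Set.Ioi (s - 1), (F t - 1)
  F_int : IntegrableOn (fun t => F t - 1) (Set.Ioi 1)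
  f_int : IntegrableOn (fun t => 1 - f t) (Set.Ioi 2)
  F_bd : ∃ C : ℝ, ∀ s, 1 ≤ s → F s - 1 ≤ C * Real.exp (-s)
  f_bd : ∃ C : ℝ, ∀ s, 2 ≤ s → 1 - f s ≤ C * Real.exp (-s)

/-- Comparison functions for the error terms: the averaging operators of the linear sieve are
contractions with factor `α < 1` for them. -/
structure IsKer (α : ℝ) (hp hm : ℝ → ℝ) : Prop where
  α_pos : 0 < α
  α_lt : α < 1
  hp_anti : AntitoneOn hp (Set.Ici 1)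
  hm_anti : AntitoneOn hm (Set.Ici 2)
  hp_lo : ∃ c : ℝ, 0 < c ∧ ∀ s, 1 ≤ s → c * Real.exp (-s) ≤ hp s
  hm_lo : ∃ c : ℝ, 0 < c ∧ ∀ s, 2 ≤ s → c * Real.exp (-s) ≤ hm s
  hp_hi : ∃ C : ℝ, 0 < C ∧ ∀ s, 1 ≤ s → hp s ≤ C * Real.exp (-s)
  hm_hi : ∃ C : ℝ, 0 < C ∧ ∀ s, 2 ≤ s → hm s ≤ C * Real.exp (-s)
  hp_int : IntegrableOn hp (Set.Ioi 1)
  hm_int : IntegrableOn hm (Set.Ioi 2)
  Lop : ∀ s, 2 ≤ s → ∫ t in Set.Ioi (s - 1), hp t ≤ α * (s * hm s)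
  Uop : ∀ s, 3 ≤ s → ∫ t in Set.Ioi (s - 1), hm t ≤ α * (s * hp s)
  Uop' : ∀ s, 1 ≤ s → s ≤ 3 → ∫ t in Set.Ioi 2, hm t ≤ α * (s * hp s)

/-- KER: take `α = 9/10`, `hm s = exp (-s)`, `hp s = exp (-2) / (α s)` for `s ≤ 3` and
`hp s = exp (1 - s) / (3 α)` for `s > 3` (continuous at `3`). The only real inequality is
`exp (s - 2) (log (3 / (s - 1)) + 1/3) ≤ α² s` on `[2, 4]` (true with `0.72` in place of `α²`). -/
def Stmt_KER : Prop := ∃ (α : ℝ) (hp hm : ℝ → ℝ), IsKer α hp hm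

/-- FF: existence of the pair `(F, f)`. With `u = F - 1`, `v = 1 - f`: the increasing iteration
`v_{k+1}(s) = (1/s) ∫_{s-1}^∞ u_k`, `u_{k+1}(s) = (1/s) (max (3-s) 0 + ∫_{max(s,3)-1}^∞ v_{k+1})`
from `u_0 = 0` stays below `C hp`, `C hm`; the limit is the fixed point; `A = 3 F 3`; and
`v(2) = 1` because `∫_1^∞ x u(x) dx = 2 + ∫_2^∞ x v(x) dx` and
`∫_2^∞ x v(x) dx = ∫_1^∞ x u(x) dx - 2 v(2)` (Fubini), which gives `f_init`. -/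
def Stmt_FF : Prop := ∃ (A : ℝ) (F f : ℝ → ℝ), IsFf A F f

/-- GAM (optional, not needed for Chen's theorem): the value of the constant. -/
def Stmt_GAM : Prop := ∀ (A : ℝ) (F f : ℝ → ℝ), IsFf A F f →
  A = 2 * Real.exp Real.eulerMascheroniConstant

/-- ABEL: summation by parts against the one-sided density condition. -/
def Stmt_ABEL : Prop := ∀ (g : ℕ → ℝ), (∀ p, 0 ≤ g p) → (∀ p, g p < 1) → g 0 = 0 → g 1 = 0 →
  ∀ (K z D : ℝ), 1 ≤ K → 1 < z → z ≤ D →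
  (∀ u : ℝ, 2 ≤ u → u ≤ z → V g ⌈u⌉₊ ≤ K * V g ⌈z⌉₊ * (Real.log z / Real.log u)) →
  ∀ Φ : ℝ → ℝ, AntitoneOn Φ (Set.Ici (Real.log D / Real.log z)) →
  (∀ t, Real.log D / Real.log z ≤ t → 0 ≤ Φ t) →
  IntegrableOn Φ (Set.Ioi (Real.log D / Real.log z)) →
  ∑ p ∈ Ico 2 ⌈z⌉₊, g p * V g p * Φ (Real.log D / Real.log p) ≤
    V g ⌈z⌉₊ * (K / (Real.log D / Real.log z) * ∫ t in Set.Ioi (Real.log D / Real.log z), Φ t)
      + V g ⌈z⌉₊ * ((K - 1) * Φ (Real.log D / Real.log z))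

/-- REC: bounds for the main sums. -/
def Stmt_REC : Prop := ∀ (A : ℝ) (F f : ℝ → ℝ), IsFf A F f →
  ∀ δ : ℝ, 0 < δ → ∃ ε : ℝ, 0 < ε ∧ ∀ (g : ℕ → ℝ), (∀ p, 0 ≤ g p) → (∀ p, g p < 1) → g 0 = 0 →
  g 1 = 0 →
  (∀ u z : ℝ, 2 ≤ u → u ≤ z →
    V g ⌈u⌉₊ ≤ (1 + ε) * V g ⌈z⌉₊ * (Real.log z / Real.log u)) →
  ∀ z D : ℝ, 1 < z →
  (z ≤ D → G g ⌈z⌉₊ true D ≤ V g ⌈z⌉₊ * (F (Real.log D / Real.log z) + δ)) ∧
  (z ^ 2 ≤ D → V g ⌈z⌉₊ * (f (Real.log D / Real.log z) - δ) ≤ G g ⌈z⌉₊ false D)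

/-- COMB: the combinatorial properties of the weights. -/
def Stmt_COMB : Prop := ∀ (P : Finset ℕ), (∀ p ∈ P, p.Prime) → ∀ (z : ℕ) (b : Bool) (D : ℝ),
  1 < D → (b = false → ∀ p ∈ P, p < z → (p : ℝ) < D) →
  (∀ d, |lam P z b D d| ≤ 1) ∧
  (∀ d, lam P z b D d ≠ 0 → d ∣ Pz P z ∧ (d : ℝ) < D) ∧
  (b = true → ∀ n, 0 < n →
    (if n.Coprime (Pz P z) then (1 : ℝ) else 0) ≤ ∑ d ∈ n.divisors, lam P z b D d) ∧
  (b = false → ∀ n, 0 < n →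
    ∑ d ∈ n.divisors, lam P z b D d ≤ (if n.Coprime (Pz P z) then (1 : ℝ) else 0)) ∧
  (∀ g : ℕ → ℝ, ∑ d ∈ (Pz P z).divisors, lam P z b D d * ∏ p ∈ d.primeFactors, g p
    = G (fun p => if p ∈ P then g p else 0) z b D)

/-- LS: **the linear sieve**. `P` is the set of sieving primes, `Q ⊆ P` a set of small primes for
which no density condition is required, `ν i` is the integer attached to the index `i`, `a i ≥ 0`
its weight. -/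
def Stmt_LS : Prop := ∀ (A : ℝ) (F f : ℝ → ℝ), IsFf A F f →
  ∀ δ : ℝ, 0 < δ → ∃ ε : ℝ, 0 < ε ∧ ∀ (P Q : Finset ℕ) (g : ℕ → ℝ),
  (∀ p ∈ P, p.Prime) → Q ⊆ P → (∀ p ∈ P, 0 ≤ g p) → (∀ p ∈ P, g p < 1) →
  (∀ u w : ℝ, 2 ≤ u → u ≤ w → 1 ≤ (1 + ε) * (Real.log w / Real.log u) *
    ∏ p ∈ (P \ Q).filter (fun p : ℕ => u ≤ (p : ℝ) ∧ (p : ℝ) < w), (1 - g p)) →
  ∀ (z D : ℝ), 1 < z → (∀ p ∈ P, (p : ℝ) < z) →
  ∀ (𝒜 : Finset ℕ) (ν : ℕ → ℕ) (a : ℕ → ℝ), (∀ i ∈ 𝒜, 0 ≤ a i) → (∀ i ∈ 𝒜, 0 < ν i) →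
  ∀ X : ℝ, 0 ≤ X →
  (z ≤ D → ∑ i ∈ 𝒜.filter (fun i => (ν i).Coprime (∏ p ∈ P, p)), a i ≤
    X * (∏ p ∈ P, (1 - g p)) * (F (Real.log D / Real.log z) + δ) +
      ∑ d ∈ (∏ p ∈ P, p).divisors.filter (fun d : ℕ => (d : ℝ) < D * (∏ q ∈ Q, q : ℕ)),
        |∑ i ∈ 𝒜.filter (fun i => d ∣ ν i), a i - X * ∏ p ∈ d.primeFactors, g p|) ∧
  (z ^ 2 ≤ D → X * (∏ p ∈ P, (1 - g p)) * (f (Real.log D / Real.log z) - δ) -
      ∑ d ∈ (∏ p ∈ P, p).divisors.filter (fun d : ℕ => (d : ℝ) < D * (∏ q ∈ Q, q : ℕ)),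
        |∑ i ∈ 𝒜.filter (fun i => d ∣ ν i), a i - X * ∏ p ∈ d.primeFactors, g p| ≤
    ∑ i ∈ 𝒜.filter (fun i => (ν i).Coprime (∏ p ∈ P, p)), a i)

/-- MERT: the density condition for `g p = 1 / (p - 1)`. -/
def Stmt_MERT : Prop := ∀ ε : ℝ, 0 < ε → ∃ u₀ : ℕ, 3 ≤ u₀ ∧ ∀ u w : ℝ, (u₀ : ℝ) ≤ u → u ≤ w →
  1 ≤ (1 + ε) * (Real.log w / Real.log u) *
    ∏ p ∈ (range ⌈w⌉₊).filter (fun p : ℕ => p.Prime ∧ u ≤ (p : ℝ)), (1 - 1 / ((p : ℝ) - 1)) ∧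
  (Real.log w / Real.log u) *
    ∏ p ∈ (range ⌈w⌉₊).filter (fun p : ℕ => p.Prime ∧ u ≤ (p : ℝ)), (1 - 1 / ((p : ℝ) - 1))
    ≤ 1 + ε

end Pool.Agent.LinSieve
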